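import Pool.Agent.MP_7adc1e_nt.Mg.H83_Values

namespace Pool.Agent.MP_7adc1e_nt.H83

open Finset Pool.Agent.MP_7adc1e_nt

theorem three_dvd_card {α : Type} [DecidableEq α] (S : Finset α) (σ : α → α)
    (h1 : ∀ x ∈ S, σ x ∈ S) (h3 : ∀ x ∈ S, σ (σ (σ x)) = x) (h0 : ∀ x ∈ S, σ x ≠ x) :
    3 ∣ S.card := by
  have : Fact (Nat.Prime 3) := ⟨Nat.prime_three⟩
  let τ : Function.End S := fun x => ⟨σ x, h1 x x.2⟩
  have h4 : τ ^ 3 ^ 1 = 1 := by
    funext x
    exact Subtype.ext (h3 x x.2)
  have h5 := Equiv.Perm.card_fixedPoints_modEq h4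
  have h6 : Fintype.card τ.fixedPoints = 0 := by
    rw [Fintype.card_eq_zero_iff]
    exact ⟨fun x => h0 x.1 x.1.2 (congrArg Subtype.val x.2)⟩
  rw [h6, Fintype.card_coe] at h5
  exact (Nat.modEq_zero_iff_dvd).1 h5

theorem arithC {p n : ℕ} (hp : p.Prime) (h5 : 3 < p) (hn : n ≤ 3) (A B C : ℤ)
    (hA : A = 1 ∨ A = 3) (h : (p : ℤ) ^ n = A + B * C) (h0 : 0 < B) (hBC : B ≤ C) (h2 : 2 ∣ B)
    (hd : (p : ℤ) ∣ B - 2) : B = 2 := by
  by_contra hne
  have hpp : Prime (p : ℤ) := Nat.prime_iff_prime_int.1 hp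
  have hp5 : (5 : ℤ) ≤ p := by
    have : p ≠ 4 := by
      rintro rfl
      exact absurd hp (by norm_num)
    omega
  have hA0 : 1 ≤ A := by omega
  obtain ⟨b, rfl⟩ := h2
  have h3 : (p : ℤ) ∣ b - 1 := by
    rw [show 2 * b - 2 = 2 * (b - 1) by ring] at hd
    refine (hpp.dvd_or_dvd hd).resolve_left (fun h => ?_)
    have := Int.le_of_dvd (by norm_num) h
    omega
  obtain ⟨k, hk⟩ := h3
  have hb : b = 1 + p * k := by linarith
  have hk0 : 1 ≤ k := by
    by_contra h
    have : k ≤ -1 := by
      rcases eq_or_ne k 0 with h | h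
      · rw [h] at hb
        omega
      · omega
    nlinarith
  subst hb
  have hsq : (2 * (1 + p * k)) ^ 2 < (p : ℤ) ^ n := by
    nlinarith [mul_le_mul_of_nonneg_left hBC h0.le]
  have hn3 : n = 3 := by
    by_contra h
    have : (p : ℤ) ^ n ≤ p ^ 2 := pow_le_pow_right₀ (by omega) (by omega)
    nlinarith [mul_le_mul_of_nonneg_left hk0 (by omega : (0 : ℤ) ≤ p)]
  subst hn3
  set c : ℤ := p ^ 2 - 2 * k * C with hc
  have e1 : 2 * C + A = p * c := by rw [hc]; linear_combination -h
  have hc0 : 0 < c := by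
    by_contra h
    nlinarith [mul_nonneg (by omega : (0 : ℤ) ≤ p) (by omega : 0 ≤ -c)]
  have e2 : c - k * A + k * p * c = p ^ 2 := by
    refine mul_left_cancel₀ (by omega : (p : ℤ) ≠ 0) ?_
    linear_combination -h - (1 + p * k) * e1
  clear_value c
  set r : ℤ := p - k * c with hr
  have e3 : c - k * A = p * r := by rw [hr]; linear_combination e2
  rcases lt_trichotomy r 0 with h6 | h6 | h6
  · have h7 : (p : ℤ) < 3 * k := by rcases hA with rfl | rfl <;> nlinarith
    have h8 : (p : ℤ) * p < 3 * (p * k) := by nlinarith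
    have h9 : (p : ℤ) * p * (p * p) < 9 * (p * k) ^ 2 := by nlinarith
    nlinarith [mul_pos (by omega : (0 : ℤ) < p) (by omega : (0 : ℤ) < k),
      mul_pos (mul_pos (by omega : (0 : ℤ) < p) (by omega : (0 : ℤ) < p)) (by omega : (0 : ℤ) < p)]
  · have h7 : (p : ℤ) = k * (k * A) := by
      rw [h6] at e3
      linear_combination -hr + h6 + k * e3
    rcases hpp.irreducible.isUnit_or_isUnit h7 with h8 | h8
    · rw [Int.isUnit_iff] at h8
      have : k = 1 := by omega
      rw [this] at h7
      omega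
    · rw [Int.isUnit_iff] at h8
      rcases hA with rfl | rfl
      · have : k = 1 := by omega
        rw [this] at h7
        omega
      · omega
  · have h7 : (p : ℤ) < c := by rcases hA with rfl | rfl <;> nlinarith
    nlinarith

variable {L : Type} [Field L] [Fintype L] [DecidableEq L]

section

variable (f : L →*₀ L) (hf : Function.Injective f) (h2 : (2 : L) ≠ 0) (h3 : (3 : L) ≠ 0)

include hf h2 h3 in
theorem special_ne (hA : rep f 1 (2 * f 2⁻¹) ≤ 3) : f 2 ≠ 2 := by
  intro h
  have h4 : ({0, 1, 2, -1} : Finset L) ⊆ univ.filter fun x => f x + f (1 - x) = 2 * f 2⁻¹ := by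
    rw [map_inv₀, h, mul_inv_cancel₀ h2]
    intro x hx
    simp only [mem_insert, mem_singleton] at hx
    simp only [mem_filter, mem_univ, true_and]
    rcases hx with rfl | rfl | rfl | rfl
    · simp
    · simp
    · rw [show (1 : L) - 2 = -1 by ring, f_neg f hf h2, map_one, h]
      ring
    · rw [show (1 : L) - -1 = 2 by ring, f_neg f hf h2, map_one, h]
      ring
  have h5 := card_le_card h4
  rw [card_insert_of_notMem, card_insert_of_notMem, card_pair] at h5
  · unfold rep at hA
    omega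
  · exact fun h => h3 (by linear_combination h)
  · simp only [mem_insert, mem_singleton, not_or]
    exact ⟨fun h => one_ne_zero (by linear_combination -h : (1 : L) = 0),
      fun h => h2 (by linear_combination h)⟩
  · simp only [mem_insert, mem_singleton, not_or]
    exact ⟨zero_ne_one, h2.symm, fun h => one_ne_zero (by linear_combination h : (1 : L) = 0)⟩

include hf h2 in
theorem card_exc (h : f 2 ≠ 2) : (exc f).card = rep f 1 (2 * f 2⁻¹) := by
  have hf2 := f_ne f hf h2
  unfold rep exc
  refine Finset.card_bij (fun y _ => (1 + y)⁻¹) ?_ ?_ ?_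
  · intro y hy
    simp only [mem_filter, mem_univ, true_and] at hy ⊢
    have hy0 : 1 + y ≠ 0 := fun h => hy.1 (by linear_combination h)
    have := f_ne f hf hy0
    rw [show 1 - (1 + y)⁻¹ = y / (1 + y) by field_simp; ring, map_inv₀, map_inv₀, map_div₀]
    field_simp
    linear_combination hy.2
  · intro a _ b _ e
    exact add_left_cancel (inv_injective e)
  · intro x hx
    simp only [mem_filter, mem_univ, true_and] at hx ⊢
    rw [map_inv₀] at hx
    have hx0 : x ≠ 0 := by
      rintro rfl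
      rw [map_zero, sub_zero, map_one, zero_add] at hx
      field_simp at hx
      exact h hx
    have := f_ne f hf hx0
    have e : 1 + (1 - x) / x = x⁻¹ := by field_simp; ring
    refine ⟨(1 - x) / x, ⟨fun h => ?_, ?_⟩, by rw [e, inv_inv]⟩
    · rw [h, add_neg_cancel] at e
      exact hx0 (inv_eq_zero.1 e.symm)
    · rw [e, map_div₀, map_inv₀]
      field_simp at hx ⊢
      linear_combination hx

include hf h2 in
theorem rep_one_mod (hq : Fintype.card L % 3 = 2) : rep f 1 1 % 3 = 2 := by
  set S := univ.filter fun x => f x + f (1 - x) = 1 with hS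
  have m0 : (0 : L) ∈ S := by simp [hS]
  have m1 : (1 : L) ∈ S.erase 0 := by simp [hS]
  have h4 := three_dvd_card ((S.erase 0).erase 1) (fun x => (1 - x)⁻¹) ?_ ?_ ?_
  · rw [card_erase_of_mem m1, card_erase_of_mem m0] at h4
    have := card_pos.2 ⟨_, m1⟩
    rw [card_erase_of_mem m0] at this
    unfold rep
    rw [← hS]
    omega
  · intro x hx
    simp only [hS, mem_erase, mem_filter, mem_univ, true_and] at hx ⊢
    have h5 : 1 - x ≠ 0 := sub_ne_zero.2 hx.1.symm
    have := f_ne f hf h5
    refine ⟨fun h => hx.2.1 ?_, inv_ne_zero h5, ?_⟩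
    · rw [inv_eq_one] at h
      linear_combination -h
    · rw [show 1 - (1 - x)⁻¹ = -(x / (1 - x)) by field_simp; ring, f_neg f hf h2, map_inv₀,
        map_div₀]
      field_simp
      linear_combination -hx.2.2
  · intro x hx
    simp only [hS, mem_erase] at hx
    have h5 : 1 - x ≠ 0 := sub_ne_zero.2 hx.1.symm
    have h6 := hx.2.1
    rw [show 1 - (1 - x)⁻¹ = -(x / (1 - x)) by field_simp; ring,
      show 1 - (-(x / (1 - x)))⁻¹ = x⁻¹ by field_simp; ring, inv_inv]
  · intro x hx h
    simp only [hS, mem_erase] at hx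
    have h5 : 1 - x ≠ 0 := sub_ne_zero.2 hx.1.symm
    have h6 : x * (1 - x) = 1 := by
      conv_lhs => arg 1; rw [← h]
      exact inv_mul_cancel₀ h5
    have h7 : (-x) ^ 3 = 1 := by linear_combination (x + 1) * h6
    have h8 : (-x) ^ Fintype.card L = -x := FiniteField.pow_card _
    rw [← Nat.div_add_mod (Fintype.card L) 3, pow_add, pow_mul, h7, one_pow, one_mul, hq] at h8
    have h9 : x * (x + 1) = 0 := by linear_combination h8
    have h10 : x = -1 := by
      have := (mul_eq_zero.1 h9).resolve_left hx.2.1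
      linear_combination this
    have h11 : (3 : L) = 0 := by
      rw [h10] at h6
      linear_combination -h6
    have h12 : ((Fintype.card L : ℕ) : L) = 0 := FiniteField.cast_card_eq_zero L
    rw [← Nat.div_add_mod (Fintype.card L) 3, hq] at h12
    push_cast at h12
    rw [h11] at h12
    exact h2 (by linear_combination h12)

variable (hnice : (univ.image (rep f 1)).card ≤ 3)

include hf h2 hnice in
theorem f_three (h : f 2 ≠ 2) (hA : rep f 1 (2 * f 2⁻¹) = 3) (hq : ¬ 3 ∣ Fintype.card L) :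
    f 3 = 3 := by
  by_contra hne
  have hf2 := f_ne f hf h2
  have hv : (1 : L) ≠ 2 * f 2⁻¹ := by
    intro e
    rw [map_inv₀] at e
    field_simp at e
    exact h e
  have hv0 : rep f 1 1 ≠ 0 := Finset.card_ne_zero.2 ⟨0, by simp⟩
  have h4 := three_dvd_card (quad f) (fun t => (t.2, -1 - t.1 - t.2)) ?_ ?_ ?_
  · have h5 := sum_quad f hf h2 (R := ℤ) (fun _ => 1)
    rw [sum_pair f hf h2 hnice hv hv0 (fun _ => (1 : ℤ))] at h5
    simp only [Finset.sum_const, nsmul_eq_mul, mul_one, card_univ, card_exc f hf h2 h, hA] at h5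
    obtain ⟨c, hc⟩ := h4
    rw [hc] at h5
    push_cast at h5
    have h6 : Fintype.card L % 3 = 1 ∨ Fintype.card L % 3 = 2 := by omega
    rcases h6 with h6 | h6
    · have h7 : (Fintype.card L : ℤ) = 3 * (Fintype.card L / 3 : ℕ) + 1 := by omega
      rw [h7] at h5
      have : (3 : ℤ) ∣ 1 := ⟨c - rep f 1 1 * (Fintype.card L / 3 : ℕ) - (Fintype.card L / 3 : ℕ) -
        3 + rep f 1 1, by linear_combination -h5⟩
      omega
    · have h7 : (Fintype.card L : ℤ) = 3 * (Fintype.card L / 3 : ℕ) + 2 := by omega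
      have h8 := rep_one_mod f hf h2 h6
      rw [h7] at h5
      have : (3 : ℤ) ∣ rep f 1 1 + 2 := ⟨c - rep f 1 1 * (Fintype.card L / 3 : ℕ) -
        (Fintype.card L / 3 : ℕ) - 3 + rep f 1 1, by linear_combination -h5⟩
      omega
  · intro t ht
    simp only [quad, mem_filter, mem_univ, true_and] at ht ⊢
    rw [show -1 - t.2 - (-1 - t.1 - t.2) = t.1 by ring]
    linear_combination ht
  · intro t _
    exact Prod.ext (by ring) (by ring)
  · intro t ht e
    simp only [quad, mem_filter, mem_univ, true_and] at ht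
    obtain ⟨e1, e2⟩ := Prod.ext_iff.1 e
    simp only at e1 e2
    rw [e2, e1] at ht
    have h5 : 3 * t.1 = -1 := by linear_combination -e2 - 2 * e1
    have h6 := congrArg f h5
    rw [map_mul, f_neg f hf h2, map_one] at h6
    apply hne
    linear_combination f 3 * ht - 3 * h6

include hf h2 h3 hnice in
theorem cast_rep_eq_two (hA : rep f 1 (2 * f 2⁻¹) ≤ 3) (hq : ¬ 3 ∣ Fintype.card L) {v : L}
    (hv : v ≠ 2 * f 2⁻¹) (hv0 : rep f 1 v ≠ 0) : (rep f 1 v : L) = 2 := by
  have h := special_ne f hf h2 h3 hA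
  have h1 := identity f hf h2 hnice hv hv0 (fun y => y) (Or.inl fun _ => rfl)
  have ho := rep_odd f h2
  have hc := card_exc f hf h2 h
  have m1 : (1 : L) ∈ exc f := by
    simp only [exc, mem_filter, mem_univ, true_and, map_one]
    exact ⟨fun h => h2 (by linear_combination h), by rw [one_add_one_eq_two, mul_comm]⟩
  have h4 : rep f 1 (2 * f 2⁻¹) = 1 ∨ rep f 1 (2 * f 2⁻¹) = 3 := by omega
  rcases h4 with h4 | h4
  · rw [h4] at hc h1
    obtain ⟨a, ha⟩ := card_eq_one.1 hc
    rw [ha] at m1
    rw [ha, ← mem_singleton.1 m1, Finset.sum_singleton] at h1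
    push_cast at h1
    exact mul_left_cancel₀ h2 (by linear_combination -h1)
  · have h5 := f_three f hf h2 hnice h h4 hq
    have h8 : (8 : L) ≠ 0 := by
      rw [show (8 : L) = 2 ^ 3 by norm_num]
      exact pow_ne_zero _ h2
    have n1 : (1 : L) ∉ ({-3, -3⁻¹} : Finset L) := by
      simp only [mem_insert, mem_singleton, not_or]
      refine ⟨fun h => h8 (by linear_combination 2 * h), fun h => h8 ?_⟩
      field_simp at h
      linear_combination 2 * h
    have n2 : (-3 : L) ≠ -3⁻¹ := by
      intro h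
      field_simp at h
      exact h8 (by linear_combination -h)
    have h6 : ({1, -3, -3⁻¹} : Finset L) = exc f := by
      refine Finset.eq_of_subset_of_card_le ?_ (by
        rw [card_insert_of_notMem n1, card_pair n2, hc, h4])
      intro x hx
      simp only [mem_insert, mem_singleton] at hx
      rcases hx with rfl | rfl | rfl
      · exact m1
      · simp only [exc, mem_filter, mem_univ, true_and]
        refine ⟨fun h => h2 (by linear_combination -h), ?_⟩
        rw [show (1 : L) + -3 = -2 by ring, f_neg f hf h2, f_neg f hf h2, h5]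
        ring
      · simp only [exc, mem_filter, mem_univ, true_and]
        refine ⟨fun h => h2 ?_, ?_⟩
        · field_simp at h
          linear_combination h
        · rw [show (1 : L) + -3⁻¹ = 2 / 3 by field_simp; ring, f_neg f hf h2, map_inv₀, map_div₀,
            h5]
          field_simp
          ring
    rw [← h6, Finset.sum_insert n1, Finset.sum_pair n2, h4] at h1
    push_cast at h1
    have h7 : (3 : L) * 3⁻¹ = 1 := mul_inv_cancel₀ h3
    refine mul_left_cancel₀ (mul_ne_zero h2 h3) ?_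
    linear_combination h1 + (3 - rep f 1 v) * h7

include hf h2 h3 hnice in
theorem small_two {p n : ℕ} (hp : p.Prime) (h5 : 3 < p) [CharP L p] (hn : Fintype.card L = p ^ n)
    (hn3 : n ≤ 3) (hA : rep f 1 (2 * f 2⁻¹) ≤ 3) : rep f 1 1 = 2 := by
  have h := special_ne f hf h2 h3 hA
  have hf2 := f_ne f hf h2
  have hq : ¬ 3 ∣ Fintype.card L := by
    rw [hn]
    intro h
    have := (Nat.prime_dvd_prime_iff_eq Nat.prime_three hp).1 (Nat.prime_three.dvd_of_dvd_pow h)
    omega
  have hv : (1 : L) ≠ 2 * f 2⁻¹ := by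
    intro e
    rw [map_inv₀] at e
    field_simp at e
    exact h e
  have hv0 : rep f 1 1 ≠ 0 := Finset.card_ne_zero.2 ⟨0, by simp⟩
  have ho := rep_odd f h2
  set G := univ.filter fun v => rep f 1 v ≠ 0 with hG
  have m0 : 2 * f 2⁻¹ ∈ G := mem_filter.2 ⟨mem_univ _, by omega⟩
  have m1 : 1 ∈ G := mem_filter.2 ⟨mem_univ _, hv0⟩
  have c1 : Fintype.card L = rep f 1 (2 * f 2⁻¹) + rep f 1 1 * (G.card - 1) := by
    rw [← sum_rep_one f 1, ← Finset.sum_filter_ne_zero, ← hG, ← Finset.add_sum_erase _ _ m0,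
      Finset.sum_congr rfl (g := fun _ => rep f 1 1) (fun v hv' => rep_eq f hf h2 hnice hv
        (mem_erase.1 hv').1 hv0 (mem_filter.1 (mem_erase.1 hv').2).2), Finset.sum_const,
      card_erase_of_mem m0, smul_eq_mul, mul_comm (G.card - 1)]
  have w1 : f 2 - 1 ≠ 1 := fun e => h (by linear_combination e)
  have w2 : f 2 - 1 ≠ 2 * f 2⁻¹ := by
    intro e
    rw [map_inv₀] at e
    field_simp at e
    have e1 : (f 2 - 2) * (f 2 + 1) = 0 := by linear_combination e
    have e2 := (mul_eq_zero.1 e1).resolve_left (sub_ne_zero.2 h)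
    have e3 : (2 : L) = -1 := hf (by rw [f_neg f hf h2, map_one]; linear_combination e2)
    exact h3 (by linear_combination e3)
  have w3 : rep f 1 (f 2 - 1) ≠ 0 := Finset.card_ne_zero.2 ⟨2, by
    simp only [mem_filter, mem_univ, true_and]
    rw [show (1 : L) - 2 = -1 by ring, f_neg f hf h2, map_one]
    ring⟩
  have c2 : rep f 1 1 ≤ G.card - 1 := by
    rw [← rep_eq f hf h2 hnice hv w2 hv0 w3, ← card_erase_of_mem m1]
    have key : ∀ x, f x + f (1 - x) = f 2 - 1 → f x ≠ 0 ∧
        f x⁻¹ + f (1 - x⁻¹) = 1 + (2 - f 2) / f x := by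
      intro x hx
      have hx0 : x ≠ 0 := by
        rintro rfl
        rw [map_zero, sub_zero, map_one, zero_add] at hx
        exact w1 hx.symm
      have := f_ne f hf hx0
      refine ⟨this, ?_⟩
      rw [show 1 - x⁻¹ = -((1 - x) / x) by field_simp; ring, f_neg f hf h2, map_inv₀, map_div₀]
      field_simp
      linear_combination -hx
    have h6 : 2 - f 2 ≠ 0 := sub_ne_zero.2 h.symm
    refine Finset.card_le_card_of_injOn (fun x => f x⁻¹ + f (1 - x⁻¹)) (fun x hx => ?_)
      (fun x hx y hy e => ?_)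
    · obtain ⟨k1, k2⟩ := key x (mem_filter.1 hx).2
      refine mem_erase.2 ⟨?_, mem_filter.2 ⟨mem_univ _, Finset.card_ne_zero.2 ⟨x⁻¹, by simp⟩⟩⟩
      simp only [k2]
      intro e
      exact div_ne_zero h6 k1 (by linear_combination e)
    · obtain ⟨k1, k2⟩ := key x (mem_filter.1 hx).2
      obtain ⟨k3, k4⟩ := key y (mem_filter.1 hy).2
      simp only [k2, k4, add_right_inj] at e
      field_simp at e
      exact hf e.symm
  have c3 := cast_rep_eq_two f hf h2 h3 hnice hA hq hv hv0
  have c4 : (p : ℤ) ∣ (rep f 1 1 : ℤ) - 2 := (CharP.intCast_eq_zero_iff L p _).1 (by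
    push_cast
    rw [c3, sub_self])
  have := arithC hp h5 hn3 (rep f 1 (2 * f 2⁻¹)) (rep f 1 1) (G.card - 1 : ℕ) (by omega)
    (by rw [hn] at c1; exact_mod_cast c1) (by omega) (by exact_mod_cast c2)
    (by exact_mod_cast rep_even' f h2 hv) c4
  exact_mod_cast this

end

omit [Fintype L] in
theorem card_pairs [Fintype L] {s : ℕ} (hs0 : s ≠ 0) (v : L) :
    (Finset.univ.filter (fun p : L × L => p.1 + p.2 = 1 ∧ p.1 ^ s + p.2 ^ s = v)).card =
      rep (powMonoidWithZeroHom hs0 : L →*₀ L) 1 v := by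
  unfold rep
  refine Finset.card_bij (fun xy _ => xy.1) ?_ ?_ ?_
  · rintro ⟨x, y⟩ h
    simp only [Finset.mem_filter, Finset.mem_univ, true_and] at h ⊢
    rw [← h.1, add_sub_cancel_left]
    exact h.2
  · rintro ⟨x, y⟩ h ⟨x', y'⟩ h' e
    simp only [Finset.mem_filter, Finset.mem_univ, true_and] at h h' e
    exact Prod.ext e (by linear_combination h.1 - h'.1 - e)
  · intro x h
    simp only [Finset.mem_filter, Finset.mem_univ, true_and] at h
    exact ⟨(x, 1 - x), by simpa using h, rfl⟩

end Pool.Agent.MP_7adc1e_nt.H83
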