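import Pool.Agent.MP_7adc1e_nt.Core

-- part MP_7adc1e_nt.H83.Sums
section

namespace Pool.Agent.MP_7adc1e_nt.H83

open Finset Pool.Agent.MP_7adc1e_nt

variable {L : Type} [Field L] [Fintype L] [DecidableEq L]

section basic

variable (f : L →*₀ L) (hf : Function.Injective f) (h2 : (2 : L) ≠ 0)
include hf h2

omit [Fintype L] [DecidableEq L] in
theorem f_neg (x : L) : f (-x) = -f x := by
  have h1 : f (-1) * f (-1) = 1 := by rw [← map_mul]; simp
  have h3 : f (-1) ≠ 1 := by
    intro h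
    have h4 : (-1 : L) = 1 := hf (by rw [h, map_one])
    exact h2 (by linear_combination -h4)
  have h5 : f (-1) = -1 := by
    rcases mul_self_eq_one_iff.1 h1 with h | h
    · exact absurd h h3
    · exact h
  rw [show -x = -1 * x by ring, map_mul, h5]
  ring

omit [Fintype L] [DecidableEq L] h2 in
theorem f_ne {x : L} (hx : x ≠ 0) : f x ≠ 0 := fun h => hx (hf (by rw [h, map_zero]))

theorem rep_one_zero : rep f 1 0 = 0 := by
  unfold rep
  rw [Finset.card_eq_zero, Finset.filter_eq_empty_iff]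
  intro x _ h
  have h3 : f x = f (-(1 - x)) := by rw [f_neg f hf h2]; linear_combination h
  have h4 := hf h3
  exact one_ne_zero (by linear_combination h4 : (1 : L) = 0)

theorem rep_zero_zero : rep f 0 0 = Fintype.card L := by
  unfold rep
  rw [Finset.filter_true_of_mem, Finset.card_univ]
  intro x _
  rw [zero_sub, f_neg f hf h2]
  ring

omit hf [Fintype L] [DecidableEq L] in
theorem two_dvd_card (S : Finset L)
    (h1 : ∀ x ∈ S, 1 - x ∈ S) (h3 : (2 : L)⁻¹ ∉ S) : 2 ∣ S.card := by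
  have : ∑ _x ∈ S, (1 : ZMod 2) = 0 :=
    Finset.sum_involution (fun x _ => 1 - x) (fun _ _ => by decide) (fun x hx _ h => h3 (by
      have : x = 2⁻¹ := by
        field_simp
        linear_combination -h
      rwa [← this])) (fun x hx => h1 x hx) (fun _ _ => by ring)
  rw [Finset.sum_const, nsmul_eq_mul, mul_one] at this
  exact (ZMod.natCast_eq_zero_iff _ _).1 this

omit hf in
theorem rep_even' {v : L} (hv : v ≠ 2 * f 2⁻¹) : 2 ∣ rep f 1 v := by
  refine two_dvd_card h2 _ ?_ ?_
  · intro x hx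
    simp only [mem_filter, mem_univ, true_and] at hx ⊢
    rw [sub_sub_cancel, add_comm, hx]
  · simp only [mem_filter, mem_univ, true_and]
    intro h
    apply hv
    rw [← h, show (1 : L) - 2⁻¹ = 2⁻¹ by field_simp; ring]
    ring

omit hf in
theorem rep_odd : ¬ 2 ∣ rep f 1 (2 * f 2⁻¹) := by
  have hm : (2 : L)⁻¹ ∈ univ.filter fun x => f x + f (1 - x) = 2 * f 2⁻¹ := by
    simp only [mem_filter, mem_univ, true_and]
    rw [show (1 : L) - 2⁻¹ = 2⁻¹ by field_simp; ring]
    ring
  have h3 := two_dvd_card h2 ((univ.filter fun x => f x + f (1 - x) = 2 * f 2⁻¹).erase 2⁻¹) ?_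
    (Finset.notMem_erase _ _)
  · rw [Finset.card_erase_of_mem hm] at h3
    have h4 := Finset.card_pos.2 ⟨_, hm⟩
    unfold rep
    omega
  · intro x hx
    simp only [mem_erase, mem_filter, mem_univ, true_and] at hx ⊢
    refine ⟨fun h => hx.1 ?_, by rw [sub_sub_cancel, add_comm, hx.2]⟩
    have : (1 : L) - 2⁻¹ = 2⁻¹ := by field_simp; ring
    linear_combination this - h

/-- For a nice map all the nonzero multiplicities away from the special value agree. -/
theorem rep_eq (hnice : (univ.image (rep f 1)).card ≤ 3) {v w : L} (hv : v ≠ 2 * f 2⁻¹)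
    (hw : w ≠ 2 * f 2⁻¹) (hv0 : rep f 1 v ≠ 0) (hw0 : rep f 1 w ≠ 0) :
    rep f 1 w = rep f 1 v := by
  by_contra hne
  have ho := rep_odd f h2
  have e1 := rep_even' f h2 hv
  have e2 := rep_even' f h2 hw
  have hsub : ({0, rep f 1 (2 * f 2⁻¹), rep f 1 v, rep f 1 w} : Finset ℕ) ⊆
      univ.image (rep f 1) := by
    intro m hm
    simp only [mem_insert, mem_singleton] at hm
    rcases hm with rfl | rfl | rfl | rfl
    · exact mem_image.2 ⟨0, mem_univ _, rep_one_zero f hf h2⟩
    all_goals exact mem_image.2 ⟨_, mem_univ _, rfl⟩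
  have hc := Finset.card_le_card hsub
  rw [Finset.card_insert_of_notMem, Finset.card_insert_of_notMem, Finset.card_pair] at hc
  · omega
  · exact fun h => hne h.symm
  · simp only [mem_insert, mem_singleton, not_or]
    constructor
    · intro h
      exact ho (h ▸ e1)
    · intro h
      exact ho (h ▸ e2)
  · simp only [mem_insert, mem_singleton, not_or]
    refine ⟨fun h => ho (h ▸ dvd_zero 2), fun h => hv0 h.symm, fun h => hw0 h.symm⟩

end basic

/-- The solutions of `1 + y + z + w = 0 = 1 + f y + f z + f w`, parametrised by `(y, z)`. -/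
def quad (f : L → L) : Finset (L × L) :=
  univ.filter fun t : L × L => f t.1 + f t.2 + f (-1 - t.1 - t.2) = -1

theorem sum_quad (f : L →*₀ L) (hf : Function.Injective f) (h2 : (2 : L) ≠ 0)
    {R : Type} [CommSemiring R] (g : L → R) :
    ∑ t ∈ quad f, g t.1 = ∑ y, g y * (rep f (1 + y) (1 + f y) : R) := by
  unfold quad
  rw [Finset.sum_filter, Fintype.sum_prod_type]
  refine Finset.sum_congr rfl (fun y _ => ?_)
  dsimp only
  rw [← Finset.sum_filter, Finset.sum_const, nsmul_eq_mul, mul_comm]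
  congr 2
  unfold rep
  refine Finset.card_bij (fun z _ => -z) ?_ ?_ ?_
  · intro z hz
    simp only [mem_filter, mem_univ, true_and] at hz ⊢
    rw [show 1 + y - -z = -(-1 - y - z) by ring, f_neg f hf h2, f_neg f hf h2]
    linear_combination -hz
  · intro a _ b _ h
    exact neg_injective h
  · intro x hx
    simp only [mem_filter, mem_univ, true_and] at hx ⊢
    refine ⟨-x, ?_, neg_neg x⟩
    rw [show -1 - y - -x = -(1 + y - x) by ring, f_neg f hf h2, f_neg f hf h2]
    linear_combination -hx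

theorem sum_quad_snd (f : L → L) (g : L → L) :
    ∑ t ∈ quad f, g t.2 = ∑ t ∈ quad f, g t.1 := by
  refine Finset.sum_bij' (fun t _ => (t.2, t.1)) (fun t _ => (t.2, t.1)) ?_ ?_ ?_ ?_ ?_
  · intro t ht
    simp only [quad, mem_filter, mem_univ, true_and] at ht ⊢
    rw [show -1 - t.2 - t.1 = -1 - t.1 - t.2 by ring]
    linear_combination ht
  · intro t ht
    simp only [quad, mem_filter, mem_univ, true_and] at ht ⊢
    rw [show -1 - t.2 - t.1 = -1 - t.1 - t.2 by ring]
    linear_combination ht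
  all_goals simp

theorem sum_quad_thd (f : L → L) (g : L → L) :
    ∑ t ∈ quad f, g (-1 - t.1 - t.2) = ∑ t ∈ quad f, g t.1 := by
  refine Finset.sum_bij' (fun t _ => (-1 - t.1 - t.2, t.2)) (fun t _ => (-1 - t.1 - t.2, t.2))
    ?_ ?_ ?_ ?_ ?_
  · intro t ht
    simp only [quad, mem_filter, mem_univ, true_and] at ht ⊢
    rw [show -1 - (-1 - t.1 - t.2) - t.2 = t.1 by ring]
    linear_combination ht
  · intro t ht
    simp only [quad, mem_filter, mem_univ, true_and] at ht ⊢
    rw [show -1 - (-1 - t.1 - t.2) - t.2 = t.1 by ring]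
    linear_combination ht
  · intro t _
    exact Prod.ext (by ring) rfl
  · intro t _
    exact Prod.ext (by ring) rfl
  · simp

/-- The first moment identity. -/
theorem moment (f : L →*₀ L) (hf : Function.Injective f) (h2 : (2 : L) ≠ 0) (g : L → L)
    (hg : ∀ t ∈ quad f, g t.1 + g t.2 + g (-1 - t.1 - t.2) = -1) :
    ∑ y, (1 + 3 * g y) * (rep f (1 + y) (1 + f y) : L) = 0 := by
  rw [← sum_quad f hf h2 (fun y => 1 + 3 * g y)]
  have h1 : ∑ t ∈ quad f, (1 + (g t.1 + g t.2 + g (-1 - t.1 - t.2))) = 0 :=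
    Finset.sum_eq_zero (fun t ht => by rw [hg t ht]; ring)
  simp only [Finset.sum_add_distrib] at h1 ⊢
  rw [sum_quad_snd f g, sum_quad_thd f g] at h1
  rw [← Finset.mul_sum]
  linear_combination h1

/-- The exceptional ratios. -/
def exc (f : L → L) : Finset L :=
  univ.filter fun y => y ≠ -1 ∧ f 2 * (1 + f y) = 2 * f (1 + y)

theorem rep_pair (f : L →*₀ L) (hf : Function.Injective f) (h2 : (2 : L) ≠ 0)
    (hnice : (univ.image (rep f 1)).card ≤ 3) {v : L} (hv : v ≠ 2 * f 2⁻¹)
    (hv0 : rep f 1 v ≠ 0) (y : L) :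
    rep f (1 + y) (1 + f y) = if y = -1 then Fintype.card L else
      if y ∈ exc f then rep f 1 (2 * f 2⁻¹) else rep f 1 v := by
  split_ifs with h1 h3
  · subst h1
    rw [f_neg f hf h2, map_one, add_neg_cancel, rep_zero_zero f hf h2]
  · have hy : 1 + y ≠ 0 := fun h => h1 (by linear_combination h)
    rw [rep_scale f hf hy]
    congr 1
    simp only [exc, mem_filter, mem_univ, true_and] at h3
    have := f_ne f hf hy
    have h4 := f_ne f hf h2
    rw [map_inv₀]
    field_simp
    linear_combination h3.2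
  · have hy : 1 + y ≠ 0 := fun h => h1 (by linear_combination h)
    have h5 := f_ne f hf hy
    have h4 := f_ne f hf h2
    have hpos : rep f (1 + y) (1 + f y) ≠ 0 := by
      unfold rep
      refine Finset.card_ne_zero.2 ⟨1, ?_⟩
      simp
    rw [rep_scale f hf hy] at hpos ⊢
    refine rep_eq f hf h2 hnice hv ?_ hv0 hpos
    intro h
    apply h3
    simp only [exc, mem_filter, mem_univ, true_and]
    refine ⟨h1, ?_⟩
    rw [map_inv₀] at h
    field_simp at h
    linear_combination h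

theorem sum_pair (f : L →*₀ L) (hf : Function.Injective f) (h2 : (2 : L) ≠ 0)
    (hnice : (univ.image (rep f 1)).card ≤ 3) {v : L} (hv : v ≠ 2 * f 2⁻¹)
    (hv0 : rep f 1 v ≠ 0) {R : Type} [CommRing R] (g : L → R) :
    ∑ y, g y * (rep f (1 + y) (1 + f y) : R) =
      (rep f 1 v : R) * ∑ y, g y + ((Fintype.card L : R) - rep f 1 v) * g (-1) +
        ((rep f 1 (2 * f 2⁻¹) : R) - rep f 1 v) * ∑ y ∈ exc f, g y := by
  have hm : (-1 : L) ∉ exc f := by simp [exc]
  have h1 : ∀ y, g y * (rep f (1 + y) (1 + f y) : R) = (rep f 1 v : R) * g y +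
      (if y = -1 then ((Fintype.card L : R) - rep f 1 v) * g y else 0) +
      (if y ∈ exc f then ((rep f 1 (2 * f 2⁻¹) : R) - rep f 1 v) * g y else 0) := by
    intro y
    rw [rep_pair f hf h2 hnice hv hv0]
    by_cases a : y = -1
    · subst a
      simp only [if_true, if_neg hm]
      ring
    · by_cases b : y ∈ exc f
      · simp only [if_neg a, if_pos b]
        ring
      · simp only [if_neg a, if_neg b]
        ring
  simp only [h1, Finset.sum_add_distrib, Finset.sum_ite_eq', mem_univ, if_true]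
  rw [← Finset.mul_sum, ← Finset.sum_filter, Finset.filter_mem_eq_inter, Finset.univ_inter,
    ← Finset.mul_sum]

omit [DecidableEq L] in
theorem sum_id (h2 : (2 : L) ≠ 0) : ∑ y : L, y = 0 := by
  have h1 : ∑ y : L, y = ∑ y : L, -y := (Equiv.sum_comp (Equiv.neg L) (fun y => y)).symm
  rw [Finset.sum_neg_distrib] at h1
  have : (2 : L) * ∑ y : L, y = 0 := by linear_combination h1
  exact (mul_eq_zero.1 this).resolve_left h2

/-- The identity for nice maps. -/
theorem identity (f : L →*₀ L) (hf : Function.Injective f) (h2 : (2 : L) ≠ 0)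
    (hnice : (univ.image (rep f 1)).card ≤ 3) {v : L} (hv : v ≠ 2 * f 2⁻¹)
    (hv0 : rep f 1 v ≠ 0) (g : L → L) (hg : (∀ y, g y = y) ∨ ∀ y, g y = f y) :
    2 * (rep f 1 v : L) +
      ((rep f 1 (2 * f 2⁻¹) : L) - rep f 1 v) * ∑ y ∈ exc f, (1 + 3 * g y) = 0 := by
  have h1 := moment f hf h2 g (by
    intro t ht
    rcases hg with hg | hg
    · simp only [hg]
      ring
    · simp only [hg]
      simpa only [quad, mem_filter, mem_univ, true_and] using ht)
  rw [sum_pair f hf h2 hnice hv hv0 (fun y => 1 + 3 * g y)] at h1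
  have hs : ∑ y, g y = 0 := by
    rcases hg with hg | hg
    · simp only [hg]
      exact sum_id h2
    · simp only [hg]
      rw [← sum_id h2]
      exact Equiv.sum_comp (Equiv.ofBijective f (Finite.injective_iff_bijective.1 hf)) (fun y => y)
  have hm : g (-1) = -1 := by
    rcases hg with hg | hg
    · exact hg _
    · rw [hg, f_neg f hf h2, map_one]
  rw [Finset.sum_add_distrib, ← Finset.mul_sum, hs, hm, Finset.sum_const, Finset.card_univ,
    nsmul_eq_mul, FiniteField.cast_card_eq_zero] at h1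
  linear_combination h1

end Pool.Agent.MP_7adc1e_nt.H83

namespace Pool.Agent.MP_7adc1e_nt.H83

open Finset Pool.Agent.MP_7adc1e_nt

variable {L : Type} [Field L] [Fintype L] [DecidableEq L]

/-- The Weil sum of `v f(x) - a x`. -/
noncomputable def Wv (ψ : AddChar L ℂ) (f : L → L) (v a : L) : ℂ := ∑ x, ψ (v * f x - a * x)

section

variable {ψ : AddChar L ℂ} (hψ : ψ ≠ 1) (f : L →*₀ L) (hf : Function.Injective f)
  (h2 : (2 : L) ≠ 0)

include hψ in
theorem sum_char (b : L) : ∑ x, ψ (x * b) = if b = 0 then (Fintype.card L : ℂ) else 0 := by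
  have := AddChar.sum_mulShift b (AddChar.IsPrimitive.of_ne_one hψ)
  rw [this]
  split_ifs <;> simp

include hf in
omit [DecidableEq L] in
theorem sum_f {R : Type} [AddCommMonoid R] (g : L → R) : ∑ x, g (f x) = ∑ x, g x :=
  Equiv.sum_comp (Equiv.ofBijective f (Finite.injective_iff_bijective.1 hf)) g

include hψ hf in
theorem Wv_zero {v : L} (hv : v ≠ 0) : Wv ψ f v 0 = 0 := by
  unfold Wv
  simp only [zero_mul, sub_zero]
  rw [sum_f f hf (fun y => ψ (v * y))]
  simp only [mul_comm v]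
  rw [sum_char hψ, if_neg hv]

include hψ in
theorem sum_Wv (v : L) : ∑ a, Wv ψ f v a = Fintype.card L := by
  unfold Wv
  rw [Finset.sum_comm]
  have : ∀ x, ∑ a, ψ (v * f x - a * x) = if x = 0 then (Fintype.card L : ℂ) else 0 := by
    intro x
    have h1 : ∀ a, ψ (v * f x - a * x) = ψ (v * f x) * ψ (a * (-x)) := fun a => by
      rw [← AddChar.map_add_eq_mul]
      congr 1
      ring
    simp only [h1]
    rw [← Finset.mul_sum, sum_char hψ]
    by_cases hx : x = 0
    · simp [hx]
    · simp [hx]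
  simp only [this]
  simp

include hψ hf h2 in
theorem orth (v w : L) :
    ∑ a, Wv ψ f v a * Wv ψ f w a = if v = w then (Fintype.card L : ℂ) ^ 2 else 0 := by
  unfold Wv
  simp only [Finset.sum_mul_sum]
  rw [Finset.sum_comm]
  have h1 : ∀ x, ∑ a, ∑ y, ψ (v * f x - a * x) * ψ (w * f y - a * y) =
      ψ (f x * (v - w)) * Fintype.card L := by
    intro x
    rw [Finset.sum_comm]
    have h3 : ∀ y, ∑ a, ψ (v * f x - a * x) * ψ (w * f y - a * y) =
        if y = -x then ψ (f x * (v - w)) * Fintype.card L else 0 := by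
      intro y
      have h4 : ∀ a, ψ (v * f x - a * x) * ψ (w * f y - a * y) =
          ψ (v * f x + w * f y) * ψ (a * (-x - y)) := fun a => by
        rw [← AddChar.map_add_eq_mul, ← AddChar.map_add_eq_mul]
        congr 1
        ring
      simp only [h4]
      rw [← Finset.mul_sum, sum_char hψ]
      by_cases hy : y = -x
      · subst hy
        rw [if_pos (by ring), if_pos rfl, f_neg f hf h2]
        congr 2
        ring
      · rw [if_neg (fun h => hy (by linear_combination -h)), if_neg hy, mul_zero]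
    simp only [h3]
    simp
  simp only [h1]
  rw [← Finset.sum_mul, sum_f f hf (fun y => ψ (y * (v - w))), sum_char hψ]
  by_cases h : v = w
  · rw [if_pos (sub_eq_zero.2 h), if_pos h, sq]
  · rw [if_neg (fun h' => h (sub_eq_zero.1 h')), if_neg h, zero_mul]

theorem sum_fiber {R : Type} [CommSemiring R] (g : L → L) (u : L) (F : L → R) :
    ∑ x, F (g x + g (u - x)) = ∑ w, (rep g u w : R) * F w := by
  unfold rep
  rw [← Finset.sum_fiberwise (s := univ) (g := fun x => g x + g (u - x))]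
  refine Finset.sum_congr rfl (fun w _ => ?_)
  rw [Finset.sum_congr rfl (g := fun _ => F w) (fun x hx => by rw [(mem_filter.1 hx).2]),
    Finset.sum_const, nsmul_eq_mul]

theorem sum_rep_one (g : L → L) (u : L) : ∑ w, rep g u w = Fintype.card L := by
  have := sum_fiber (R := ℕ) g u (fun _ => 1)
  simpa using this.symm

include hf h2 in
theorem expand (a : L) : Wv ψ f 1 a ^ 2 = ∑ v, (rep f 1 v : ℂ) * Wv ψ f v a := by
  unfold Wv
  rw [sq, Finset.sum_mul_sum]
  have h1 : ∀ x, ∑ y, ψ (1 * f x - a * x) * ψ (1 * f y - a * y) =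
      ∑ u, ψ (f x + f (u - x) - a * u) := by
    intro x
    rw [← Equiv.sum_comp (Equiv.subRight x)]
    refine Finset.sum_congr rfl (fun u _ => ?_)
    rw [← AddChar.map_add_eq_mul]
    congr 1
    simp only [Equiv.subRight_apply]
    ring
  simp only [h1, Finset.mul_sum]
  rw [Finset.sum_comm]
  conv_rhs => rw [Finset.sum_comm]
  refine Finset.sum_congr rfl (fun u _ => ?_)
  by_cases hu : u = 0
  · subst hu
    simp only [zero_sub, f_neg f hf h2, add_neg_cancel, mul_zero, sub_zero, map_zero,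
      AddChar.map_zero_eq_one, mul_one]
    rw [← Nat.cast_sum, sum_rep_one]
    simp
  · rw [sum_fiber f u (fun w => ψ (w - a * u))]
    have hfu := f_ne f hf hu
    rw [← Equiv.sum_comp (Equiv.mulRight₀ (f u) hfu)]
    refine Finset.sum_congr rfl (fun v _ => ?_)
    simp only [Equiv.mulRight₀_apply]
    rw [rep_scale f hf hu, mul_div_cancel_right₀ _ hfu]

include hψ hf h2 in
theorem third (v : L) :
    ∑ a, Wv ψ f 1 a ^ 2 * Wv ψ f v a = (Fintype.card L : ℂ) ^ 2 * rep f 1 v := by
  simp only [expand f hf h2, Finset.sum_mul]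
  rw [Finset.sum_comm]
  simp only [mul_assoc, ← Finset.mul_sum, orth hψ f hf h2]
  simp [mul_comm]

include hψ hf h2 in
theorem fourth :
    ∑ a, Wv ψ f 1 a ^ 4 = (Fintype.card L : ℂ) ^ 2 * ∑ v, (rep f 1 v : ℂ) ^ 2 := by
  have h1 : ∀ a, Wv ψ f 1 a ^ 4 = ∑ v, (rep f 1 v : ℂ) * (Wv ψ f 1 a ^ 2 * Wv ψ f v a) := by
    intro a
    rw [show Wv ψ f 1 a ^ 4 = Wv ψ f 1 a ^ 2 * Wv ψ f 1 a ^ 2 by ring]
    conv_lhs => rw [expand f hf h2 a]
    rw [← expand f hf h2 a]
    conv_lhs => arg 1; rw [expand f hf h2 a]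
    rw [Finset.sum_mul]
    refine Finset.sum_congr rfl (fun v _ => by ring)
  simp only [h1]
  rw [Finset.sum_comm]
  simp only [← Finset.mul_sum, third hψ f hf h2]
  rw [Finset.mul_sum]
  refine Finset.sum_congr rfl (fun v _ => by ring)

omit [DecidableEq L] in
theorem Wv_scale {g : L} (hg : g ≠ 0) (v a : L) :
    Wv ψ f (v * f g) (a * g) = Wv ψ f v a := by
  unfold Wv
  rw [← Equiv.sum_comp (Equiv.mulLeft₀ g hg) (fun x => ψ (v * f x - a * x))]
  refine Finset.sum_congr rfl (fun x _ => ?_)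
  simp only [Equiv.mulLeft₀_apply, map_mul]
  congr 1
  ring

include hf in
omit [DecidableEq L] in
theorem Wv_eq {v : L} (hv : v ≠ 0) : ∃ t : L, t ≠ 0 ∧ f t * v = 1 ∧
    ∀ a, Wv ψ f v a = Wv ψ f 1 (a * t) := by
  obtain ⟨g, hg⟩ := (Finite.injective_iff_bijective.1 hf).2 v⁻¹
  have hg0 : g ≠ 0 := by
    rintro rfl
    rw [map_zero] at hg
    exact hv (inv_eq_zero.1 hg.symm)
  refine ⟨g, hg0, by rw [hg, inv_mul_cancel₀ hv], fun a => ?_⟩
  rw [← Wv_scale f hg0 v a, hg, mul_inv_cancel₀ hv]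

omit [DecidableEq L] in
theorem norm_Wv (v a : L) : ‖Wv ψ f v a‖ ≤ Fintype.card L := by
  unfold Wv
  refine (norm_sum_le _ _).trans ?_
  simp [AddChar.norm_apply]

include hf in
theorem add_of_rep (h : rep f 1 1 = Fintype.card L) (x y : L) : f (x + y) = f x + f y := by
  have h1 : ∀ z, f z + f (1 - z) = 1 := by
    intro z
    have h3 : (univ.filter fun x => f x + f (1 - x) = 1) = univ :=
      Finset.eq_univ_of_card _ h
    have : z ∈ univ.filter fun x => f x + f (1 - x) = 1 := by rw [h3]; exact mem_univ _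
    exact (mem_filter.1 this).2
  by_cases hu : x + y = 0
  · have h4 := h1 2
    have h5 := h1 (-1)
    have h6 : y = -1 * x := by linear_combination hu
    have h7 : f (-1) * f (-1) = 1 := by rw [← map_mul]; simp
    rw [hu, map_zero, h6, map_mul]
    rcases mul_self_eq_one_iff.1 h7 with h8 | h8
    · have h9 : (-1 : L) = 1 := hf (by rw [h8, map_one])
      have h10 : (1 + 1 : L) = 0 := by linear_combination -h9
      rw [h8]
      linear_combination -(f x) * h10
    · rw [h8]
      ring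
  · have h3 := h1 (x / (x + y))
    rw [show 1 - x / (x + y) = y / (x + y) by field_simp; ring, map_div₀, map_div₀, ← add_div,
      div_eq_one_iff_eq (f_ne f hf hu)] at h3
    exact h3.symm

include hψ hf h2 in
/-- If all the sums are nonnegative integers then the map is additive. -/
theorem add_of_nonneg (w : L → ℤ) (hw : ∀ a, Wv ψ f 1 a = w a) (h0 : ∀ a, 0 ≤ w a) :
    rep f 1 1 = Fintype.card L := by
  set q := Fintype.card L with hq
  have hle : ∀ a, w a ≤ q := by
    intro a
    have := norm_Wv (ψ := ψ) f 1 a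
    rw [hw, Complex.norm_intCast] at this
    exact_mod_cast (le_abs_self _).trans this
  have s1 : ∑ a, w a = q := by
    have := sum_Wv hψ f 1
    simp only [hw] at this
    exact_mod_cast this
  have s2 : ∑ a, w a * w a = (q : ℤ) ^ 2 := by
    have := orth hψ f hf h2 1 1
    simp only [hw, if_true] at this
    exact_mod_cast this
  have s3 : ∑ a, w a ^ 2 * w a = (q : ℤ) ^ 2 * rep f 1 1 := by
    have := third hψ f hf h2 1
    simp only [hw] at this
    exact_mod_cast this
  have s4 : ∑ a, w a * (q - w a) = 0 := by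
    simp only [mul_sub, Finset.sum_sub_distrib, ← Finset.sum_mul, s1, s2]
    ring
  rw [Finset.sum_eq_zero_iff_of_nonneg (fun a _ => mul_nonneg (h0 a) (by linarith [hle a]))] at s4
  have s5 : ∑ a, w a ^ 2 * w a = ∑ a, (q : ℤ) ^ 2 * w a := by
    refine Finset.sum_congr rfl (fun a ha => ?_)
    linear_combination (-(w a) - q) * s4 a ha
  rw [s3, ← Finset.mul_sum, s1] at s5
  have hq0 : (q : ℤ) ^ 2 ≠ 0 := by
    have : 0 < q := Fintype.card_pos
    positivity
  exact_mod_cast mul_left_cancel₀ hq0 s5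

end

end Pool.Agent.MP_7adc1e_nt.H83

namespace Pool.Agent.MP_7adc1e_nt.H83

open Finset Pool.Agent.MP_7adc1e_nt

variable {L : Type} [Field L] [Fintype L] [DecidableEq L]

/-- If all nonzero multiplicities agree in the field then they vanish in the field. -/
theorem two_mul_eq_zero (f : L →*₀ L) (hf : Function.Injective f) (h2 : (2 : L) ≠ 0) (β : L)
    (h : ∀ v, rep f 1 v ≠ 0 → (rep f 1 v : L) = β) : β = 0 := by
  have h1 := moment f hf h2 (fun y => y) (fun t _ => by ring)
  have h3 : ∀ y : L, (1 + 3 * y) * (rep f (1 + y) (1 + f y) : L) =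
      (1 + 3 * y) * β + if y = -1 then 2 * β else 0 := by
    intro y
    by_cases hy : y = -1
    · subst hy
      rw [f_neg f hf h2, map_one, add_neg_cancel, rep_zero_zero f hf h2,
        FiniteField.cast_card_eq_zero, if_pos rfl]
      ring
    · have hy' : 1 + y ≠ 0 := fun h => hy (by linear_combination h)
      have hpos : rep f (1 + y) (1 + f y) ≠ 0 := by
        unfold rep
        refine Finset.card_ne_zero.2 ⟨1, ?_⟩
        simp
      rw [rep_scale f hf hy'] at hpos ⊢
      rw [h _ hpos, if_neg hy, add_zero]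
  simp only [h3, Finset.sum_add_distrib, Finset.sum_ite_eq', mem_univ, if_true] at h1
  rw [← Finset.sum_mul, Finset.sum_add_distrib, ← Finset.mul_sum, sum_id h2, Finset.sum_const,
    Finset.card_univ, nsmul_eq_mul, FiniteField.cast_card_eq_zero] at h1
  have : 2 * β = 0 := by linear_combination h1
  exact (mul_eq_zero.1 this).resolve_left h2

theorem le_of_dvd_all {ι : Type} (S : Finset ι) (N : ι → ℤ) (hN : ∀ v ∈ S, 0 ≤ N v) (B d : ℤ)
    (h1 : ∀ v ∈ S, d ∣ N v) (h2 : ∑ v ∈ S, N v ^ 2 = B * ∑ v ∈ S, N v)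
    (h3 : 0 < ∑ v ∈ S, N v) : d ≤ B ∧ (d = B → ∀ v ∈ S, N v = 0 ∨ N v = B) := by
  have h4 : ∀ v ∈ S, 0 ≤ N v * (N v - d) := by
    intro v hv
    rcases (hN v hv).eq_or_lt with h | h
    · rw [← h]
      simp
    · exact mul_nonneg h.le (by linarith [Int.le_of_dvd h (h1 v hv)])
  have h5 : ∑ v ∈ S, N v * (N v - d) = (B - d) * ∑ v ∈ S, N v := by
    simp only [mul_sub, Finset.sum_sub_distrib, ← sq, h2, ← Finset.sum_mul]
    ring
  constructor
  · have := Finset.sum_nonneg h4
    rw [h5] at this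
    nlinarith
  · rintro rfl v hv
    rw [sub_self, zero_mul, Finset.sum_eq_zero_iff_of_nonneg h4] at h5
    rcases mul_eq_zero.1 (h5 v hv) with h | h
    · exact Or.inl h
    · exact Or.inr (by linarith)

section

variable {ψ : AddChar L ℂ} (hψ : ψ ≠ 1) (f : L →*₀ L) (hf : Function.Injective f)
  (h2 : (2 : L) ≠ 0) (w : L → ℤ) (hw : ∀ a, Wv ψ f 1 a = w a)

include hψ hf h2 hw

theorem dvd_rep (d c : ℤ) (h : ∀ x, d ∣ w x ^ 2 - c * w x) {v : L} (hv : v ≠ 1) :
    d ∣ (Fintype.card L : ℤ) ^ 2 * rep f 1 v := by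
  by_cases hv0 : v = 0
  · rw [hv0, rep_one_zero f hf h2]
    simp
  obtain ⟨t, -, -, ht⟩ := Wv_eq (ψ := ψ) f hf hv0
  have s1 := third hψ f hf h2 v
  have s2 := orth hψ f hf h2 1 v
  rw [if_neg (fun h => hv h.symm)] at s2
  simp only [ht, hw] at s1 s2
  have s3 : ∑ a, w a ^ 2 * w (a * t) = (Fintype.card L : ℤ) ^ 2 * rep f 1 v := by
    exact_mod_cast s1
  have s4 : ∑ a, w a * w (a * t) = 0 := by exact_mod_cast s2
  have s5 : ∑ a, (w a ^ 2 - c * w a) * w (a * t) = (Fintype.card L : ℤ) ^ 2 * rep f 1 v := by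
    simp only [sub_mul, Finset.sum_sub_distrib, mul_assoc, ← Finset.mul_sum, s3, s4]
    ring
  rw [← s5]
  exact Finset.dvd_sum (fun a _ => (h a).mul_right _)

theorem three_moments (a b : ℤ) (hab : ∀ x, w x = 0 ∨ w x = a ∨ w x = b) :
    a * b = -(Fintype.card L : ℤ) * (rep f 1 1 - a - b) ∧
    ∑ v ∈ univ.erase (1 : L), (rep f 1 v : ℤ) ^ 2 =
      (rep f 1 1 - a - b) * ∑ v ∈ univ.erase (1 : L), (rep f 1 v : ℤ) ∧
    ∑ v ∈ univ.erase (1 : L), (rep f 1 v : ℤ) = Fintype.card L - rep f 1 1 := by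
  set q : ℤ := (Fintype.card L : ℤ) with hq
  have hq0 : 0 < q := by
    have : 0 < Fintype.card L := Fintype.card_pos
    rw [hq]
    exact_mod_cast this
  have s1 : ∑ a, w a = q := by
    have := sum_Wv hψ f 1
    simp only [hw] at this
    rw [hq]
    exact_mod_cast this
  have s2 : ∑ a, w a ^ 2 = q ^ 2 := by
    have := orth hψ f hf h2 1 1
    simp only [hw, if_true, ← sq] at this
    rw [hq]
    exact_mod_cast this
  have s3 : ∑ a, w a ^ 3 = q ^ 2 * rep f 1 1 := by
    have := third hψ f hf h2 1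
    simp only [hw, ← pow_succ] at this
    rw [hq]
    exact_mod_cast this
  have s4 : ∑ a, w a ^ 4 = q ^ 2 * ∑ v, (rep f 1 v : ℤ) ^ 2 := by
    have := fourth hψ f hf h2
    simp only [hw] at this
    rw [hq]
    exact_mod_cast this
  have c3 : ∀ x, w x ^ 3 = (a + b) * w x ^ 2 - a * b * w x := by
    intro x
    rcases hab x with h | h | h <;> rw [h] <;> ring
  have c4 : ∀ x, w x ^ 4 = (a + b) * w x ^ 3 - a * b * w x ^ 2 := by
    intro x
    linear_combination w x * c3 x
  simp only [c4, Finset.sum_sub_distrib, ← Finset.mul_sum, s3, s2] at s4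
  simp only [c3, Finset.sum_sub_distrib, ← Finset.mul_sum, s1, s2] at s3
  have e1 : a * b = -q * (rep f 1 1 - a - b) :=
    mul_left_cancel₀ hq0.ne' (by linear_combination -s3)
  have e2 : ∑ v, (rep f 1 v : ℤ) ^ 2 = (a + b) * rep f 1 1 - a * b :=
    mul_left_cancel₀ (pow_pos hq0 2).ne' (by linear_combination -s4)
  have e3 : ∑ v, (rep f 1 v : ℤ) = q := by
    rw [hq, ← sum_rep_one f 1]
    push_cast
    rfl
  rw [← Finset.add_sum_erase _ _ (mem_univ (1 : L))] at e2 e3
  refine ⟨e1, ?_, by linear_combination e3⟩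
  linear_combination e2 - e1 - (rep f 1 1 - a - b : ℤ) * e3

theorem stepC_aux {p n : ℕ} (hp : p.Prime) [CharP L p] (hn : Fintype.card L = p ^ n)
    (hne : rep f 1 1 ≠ Fintype.card L) (i : ℕ) (a b : ℤ) (ha : ¬ (p : ℤ) ∣ a)
    (hab : ∀ x, w x = 0 ∨ w x = p ^ i * a ∨ w x = p ^ i * b) : n < 2 * i := by
  by_contra hi
  push Not at hi
  obtain ⟨k, rfl⟩ := Nat.exists_eq_add_of_le hi
  obtain ⟨e1, e2, e3⟩ := three_moments hψ f hf h2 w hw _ _ hab
  set B : ℤ := rep f 1 1 - p ^ i * a - p ^ i * b with hB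
  have hp0 : (0 : ℤ) < p := by exact_mod_cast hp.pos
  have hpi : (0 : ℤ) < (p : ℤ) ^ i := pow_pos hp0 i
  have hpk : (1 : ℤ) ≤ (p : ℤ) ^ k := one_le_pow₀ hp0
  have hle : rep f 1 1 ≤ Fintype.card L := Finset.card_le_univ _
  have hpos : 0 < ∑ v ∈ univ.erase (1 : L), (rep f 1 v : ℤ) := by
    rw [e3]
    have := lt_of_le_of_ne hle hne
    omega
  have hB1 : 1 ≤ B := (le_of_dvd_all _ _ (fun v _ => Int.natCast_nonneg _) B 1
    (fun v _ => one_dvd _) e2 hpos).1
  have e4 : a * b = -p ^ k * B := by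
    rw [hn] at e1
    push_cast at e1
    refine mul_left_cancel₀ (pow_pos hpi 2).ne' ?_
    linear_combination e1
  have hpp : Prime (p : ℤ) := Nat.prime_iff_prime_int.1 hp
  have cop : ∀ d : ℤ, ¬ (p : ℤ) ∣ d → ∀ m : ℤ, d ∣ (Fintype.card L : ℤ) ^ 2 * m → d ∣ m := by
    intro d hd m hm
    refine IsCoprime.dvd_of_dvd_mul_left ?_ hm
    rw [hn]
    push_cast
    exact (((Prime.coprime_iff_not_dvd hpp).2 hd).symm.pow_right).pow_right
  by_cases hb : (p : ℤ) ∣ b
  · have hd : ¬ (p : ℤ) ∣ a * (a - b) := by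
      intro h
      rcases hpp.dvd_or_dvd h with h | h
      · exact ha h
      · exact ha (by simpa using h.add hb)
    have hneg : a * b < 0 := by nlinarith
    have := (le_of_dvd_all _ _ (fun v _ => Int.natCast_nonneg _) B (a * (a - b))
      (fun v hv => cop _ hd _ (dvd_rep hψ f hf h2 w hw _ (p ^ i * b) (fun x => by
        rcases hab x with h | h | h <;> rw [h]
        · simp
        · exact ⟨(p ^ i) ^ 2, by ring⟩
        · exact ⟨0, by ring⟩) (mem_erase.1 hv).1)) e2 hpos).1
    have ha0 : a ≠ 0 := fun h => ha (h ▸ dvd_zero _)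
    have := sq_pos_of_ne_zero ha0
    nlinarith
  · have hd : ¬ (p : ℤ) ∣ a * b := fun h => (hpp.dvd_or_dvd h).elim ha hb
    have hk : k = 0 := by
      by_contra hk
      apply hd
      rw [e4]
      exact ((dvd_pow_self _ hk).neg_right).mul_right _
    subst hk
    have e5 : B = -(a * b) := by rw [e4]; ring
    have hdB : ¬ (p : ℤ) ∣ B := by rwa [e5, dvd_neg]
    have h6 := (le_of_dvd_all _ _ (fun v _ => Int.natCast_nonneg _) B B
      (fun v hv => cop _ hdB _ (dvd_rep hψ f hf h2 w hw _ (p ^ i * a + p ^ i * b) (fun x => by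
        rcases hab x with h | h | h <;> rw [h, e5]
        · simp
        · exact ⟨(p ^ i) ^ 2, by ring⟩
        · exact ⟨(p ^ i) ^ 2, by ring⟩) (mem_erase.1 hv).1)) e2 hpos).2 rfl
    have hi0 : i ≠ 0 := by
      rintro rfl
      have := Fintype.one_lt_card (α := L)
      rw [hn] at this
      simp at this
    have h7 := two_mul_eq_zero f hf h2 (B : L) (by
      intro v hv
      by_cases hv1 : v = 1
      · subst hv1
        rw [hB]
        push_cast
        rw [CharP.cast_eq_zero L p, zero_pow hi0]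
        ring
      · rcases h6 v (mem_erase.2 ⟨hv1, mem_univ _⟩) with h | h
        · exact absurd (by exact_mod_cast h) hv
        · rw [← h]
          simp)
    exact hdB ((CharP.intCast_eq_zero_iff L p B).1 h7)

theorem stepC {p n : ℕ} (hp : p.Prime) [CharP L p] (hn : Fintype.card L = p ^ n)
    (hne : rep f 1 1 ≠ Fintype.card L) (a b : ℤ)
    (hab : ∀ x, w x = 0 ∨ w x = a ∨ w x = b) : ∃ j, n < 2 * j ∧ ∀ x, (p : ℤ) ^ j ∣ w x := by
  have key : ∀ (i : ℕ) (a' b' : ℤ), ¬ (p : ℤ) ∣ a' →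
      (∀ x, w x = 0 ∨ w x = p ^ i * a' ∨ w x = p ^ i * b') →
      ∃ j, n < 2 * j ∧ ∀ x, (p : ℤ) ^ j ∣ w x := by
    intro i a' b' ha h
    refine ⟨i, stepC_aux hψ f hf h2 w hw hp hn hne i a' b' ha h, fun x => ?_⟩
    rcases h x with h | h | h <;> rw [h]
    · exact dvd_zero _
    · exact dvd_mul_right _ _
    · exact dvd_mul_right _ _
  have hpp : Prime (p : ℤ) := Nat.prime_iff_prime_int.1 hp
  have dec : ∀ c : ℤ, c ≠ 0 → ∃ (i : ℕ) (c' : ℤ), ¬ (p : ℤ) ∣ c' ∧ c = p ^ i * c' := by
    intro c hc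
    obtain ⟨i, c', h1, h3⟩ := WfDvdMonoid.max_power_factor hc hpp.irreducible
    exact ⟨i, c', h1, h3⟩
  by_cases ha : a = 0
  · by_cases hb : b = 0
    · refine ⟨n + 1, by omega, fun x => ?_⟩
      rcases hab x with h | h | h <;> simp [h, ha, hb]
    · obtain ⟨i, c, h1, rfl⟩ := dec b hb
      refine key i c 0 h1 (fun x => ?_)
      rcases hab x with h | h | h <;> simp [h, ha]
  obtain ⟨i, c, h1, rfl⟩ := dec a ha
  by_cases hb : b = 0
  · refine key i c 0 h1 (fun x => ?_)
    rcases hab x with h | h | h <;> simp [h, hb]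
  obtain ⟨k, d, h3, rfl⟩ := dec b hb
  rcases le_total i k with h | h
  · obtain ⟨m, rfl⟩ := Nat.exists_eq_add_of_le h
    refine key i c (p ^ m * d) h1 (fun x => ?_)
    rcases hab x with h | h | h
    · exact Or.inl h
    · exact Or.inr (Or.inl h)
    · exact Or.inr (Or.inr (by rw [h]; ring))
  · obtain ⟨m, rfl⟩ := Nat.exists_eq_add_of_le h
    refine key k d (p ^ m * c) h3 (fun x => ?_)
    rcases hab x with h | h | h
    · exact Or.inl h
    · exact Or.inr (Or.inr (by rw [h]; ring))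
    · exact Or.inr (Or.inl h)

end

end Pool.Agent.MP_7adc1e_nt.H83

end

-- part MP_7adc1e_nt.H83.Values
section

namespace Pool.Agent.MP_7adc1e_nt.H83

open Finset Pool.Agent.MP_7adc1e_nt

theorem int_of_rat {z : ℂ} (hz : IsIntegral ℤ z) (r : ℚ) (h : z = r) : ∃ m : ℤ, z = m := by
  have h1 : IsIntegral ℤ r := by
    rw [← isIntegral_algebraMap_iff (A := ℚ) (B := ℂ) (algebraMap ℚ ℂ).injective]
    simpa [h] using hz
  obtain ⟨m, hm⟩ := IsIntegrallyClosed.isIntegral_iff.1 h1
  exact ⟨m, by rw [h, ← hm]; simp⟩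

theorem dvd_of_integral {z : ℂ} (hz : IsIntegral ℤ z) {n q : ℕ} (hn : n ≠ 0)
    (h : (n : ℂ) * z = q) : n ∣ q := by
  have hn' : (n : ℂ) ≠ 0 := by exact_mod_cast hn
  obtain ⟨m, hm⟩ := int_of_rat hz ((q : ℚ) / n) (by
    push_cast
    rw [← h]
    field_simp)
  rw [hm] at h
  have : (n : ℤ) * m = q := by exact_mod_cast h
  exact Int.natCast_dvd_natCast.1 ⟨m, this.symm⟩

theorem gal {ι : Type} [Fintype ι] {p : ℕ} (hp : p.Prime) (F G : ι → ℂ) (hF : ∀ x, F x ^ p = 1)
    (hG : ∀ x, G x ^ p = 1) (h : ∑ x, F x = ∑ x, G x) (c : ℕ) :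
    ∑ x, F x ^ c = ∑ x, G x ^ c := by
  classical
  have : NeZero p := ⟨hp.ne_zero⟩
  have hζ := Complex.isPrimitiveRoot_exp p hp.ne_zero
  set ζ := Complex.exp (2 * Real.pi * Complex.I / p)
  have key : ∀ H : ι → ℂ, (∀ x, H x ^ p = 1) → ∃ α : Fin p → ℤ, ∀ φ : ℂ → ℂ,
      ∑ x, φ (H x) = ∑ i : Fin p, α i * φ (ζ ^ i.val) := by
    intro H hH
    choose e he1 he2 using fun x => hζ.eq_pow_of_pow_eq_one (hH x)
    refine ⟨fun i => (univ.filter fun x => (⟨e x, he1 x⟩ : Fin p) = i).card, fun φ => ?_⟩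
    rw [← Finset.sum_fiberwise (s := univ) (g := fun x => (⟨e x, he1 x⟩ : Fin p))]
    refine Finset.sum_congr rfl (fun i _ => ?_)
    rw [Finset.sum_congr rfl (g := fun _ => φ (ζ ^ i.val)) (fun x hx => by
      rw [← (mem_filter.1 hx).2, he2]), Finset.sum_const, nsmul_eq_mul]
    simp
  obtain ⟨α, hα⟩ := key F hF
  obtain ⟨β, hβ⟩ := key G hG
  have h1 : ∑ i : Fin p, ((α i - β i : ℤ) : ℂ) * ζ ^ i.val = 0 := by
    have a1 := hα id
    have a2 := hβ id
    simp only [id] at a1 a2
    push_cast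
    simp only [sub_mul, Finset.sum_sub_distrib]
    rw [← a1, ← a2, h, sub_self]
  have h3 := (IsPrimitiveRoot.sum_eq_zero_iff_forall_eq_int hp hζ _).1 h1
  have h4 : ∑ i : Fin p, ((α i - β i : ℤ) : ℂ) = 0 := by
    have a1 := hα (fun _ => 1)
    have a2 := hβ (fun _ => 1)
    simp only [mul_one] at a1 a2
    push_cast
    simp only [Finset.sum_sub_distrib]
    rw [← a1, ← a2, sub_self]
  have h5 : ∀ i, α i = β i := by
    intro i
    rw [Finset.sum_congr rfl (g := fun _ => ((α i - β i : ℤ) : ℂ)) (fun j _ => by rw [h3 j i]),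
      Finset.sum_const, nsmul_eq_mul, Finset.card_univ, Fintype.card_fin] at h4
    have hp0 : (p : ℂ) ≠ 0 := by exact_mod_cast hp.ne_zero
    have := (mul_eq_zero.1 h4).resolve_left hp0
    have h6 : α i - β i = 0 := by exact_mod_cast this
    linarith
  rw [hα (fun u => u ^ c), hβ (fun u => u ^ c)]
  simp only [h5]

theorem int_of_fixed {ι : Type} [Fintype ι] {p : ℕ} (hp : p.Prime) (F : ι → ℂ)
    (hF : ∀ x, F x ^ p = 1) (h : ∀ c, 0 < c → c < p → ∑ x, F x ^ c = ∑ x, F x) :
    ∃ m : ℤ, ∑ x, F x = m := by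
  classical
  have hi : IsIntegral ℤ (∑ x, F x) :=
    IsIntegral.sum _ (fun x _ => IsIntegral.of_pow hp.pos (by rw [hF]; exact isIntegral_one))
  have h1 : ∑ c ∈ range p, ∑ x, F x ^ c = Fintype.card ι + ((p : ℂ) - 1) * ∑ x, F x := by
    obtain ⟨m, rfl⟩ : ∃ m, p = m + 1 := ⟨p - 1, by have := hp.pos; omega⟩
    rw [Finset.sum_range_succ', Finset.sum_congr rfl (g := fun _ => ∑ x, F x)
      (fun c hc => h _ (by omega) (by have := mem_range.1 hc; omega))]
    simp [add_comm]
  have h2 : ∑ c ∈ range p, ∑ x, F x ^ c = p * ((univ.filter fun x => F x = 1).card : ℂ) := by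
    rw [Finset.sum_comm, Finset.card_filter]
    push_cast
    rw [Finset.mul_sum]
    refine Finset.sum_congr rfl (fun x _ => ?_)
    split_ifs with hx
    · simp [hx]
    · rw [geom_sum_eq hx, hF, sub_self, zero_div, mul_zero]
  have hp1 : (p : ℂ) - 1 ≠ 0 := by
    rw [sub_ne_zero]
    exact_mod_cast hp.ne_one
  refine int_of_rat hi (((p : ℚ) * (univ.filter fun x => F x = 1).card - Fintype.card ι) /
    ((p : ℚ) - 1)) ?_
  push_cast
  rw [eq_div_iff hp1]
  linear_combination h2 - h1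

theorem arithA {p n : ℕ} (hp : p.Prime) (m k x q : ℤ) (hq : q = p ^ n) (h5 : 5 ≤ q)
    (hm : 0 < m) (hk : 0 < k) (hd : m ∣ q ^ 2) (h1 : 2 * m + k = q - 1)
    (h2 : k * (q - 1) * x ^ 2 - 2 * q * k * x + (1 - m) * q ^ 2 = 0) : m = 1 ∧ x = 0 := by
  have hpp : Prime (p : ℤ) := Nat.prime_iff_prime_int.1 hp
  have hn : n ≠ 0 := by
    rintro rfl
    simp at hq
    omega
  have hpq : (p : ℤ) ∣ q := hq ▸ dvd_pow_self _ hn
  by_cases hm1 : m = 1
  · refine ⟨hm1, ?_⟩
    subst hm1
    by_contra hx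
    have h3 : k * x * ((q - 1) * x - 2 * q) = 0 := by linear_combination h2
    have h4 : (q - 1) * x = 2 * q := by
      rcases mul_eq_zero.1 h3 with h | h
      · rcases mul_eq_zero.1 h with h | h
        · omega
        · exact absurd h hx
      · linarith
    have h6 : (q - 1) * (x - 2) = 2 := by linarith
    have h7 := Int.le_of_dvd (by norm_num) (Dvd.intro _ h6)
    omega
  exfalso
  have hpm : (p : ℤ) ∣ m := by
    by_contra h
    have : IsCoprime m (q ^ 2) := by
      rw [hq]
      exact (((Prime.coprime_iff_not_dvd hpp).2 h).symm.pow_right).pow_right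
    have := Int.isUnit_iff.1 (this.isUnit_of_dvd hd)
    omega
  have hx : x ≠ 0 := by
    rintro rfl
    have : (1 - m) * q ^ 2 = 0 := by linear_combination h2
    rcases mul_eq_zero.1 this with h | h
    · omega
    · have := pow_eq_zero_iff (two_ne_zero) |>.1 h
      omega
  have u1 : ¬ (p : ℤ) ∣ q - 1 := fun h => hpp.not_dvd_one (by simpa using hpq.sub h)
  have u2 : ¬ (p : ℤ) ∣ k := fun h => u1 (h1 ▸ (hpm.mul_left 2).add h)
  obtain ⟨i, y, hy, rfl⟩ := WfDvdMonoid.max_power_factor hx hpp.irreducible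
  have hp0 : (0 : ℤ) < p := by exact_mod_cast hp.pos
  rcases lt_or_ge i n with hi | hi
  · obtain ⟨j, rfl⟩ := Nat.exists_eq_add_of_lt hi
    have h3 : k * (q - 1) * y ^ 2 = p * (2 * p ^ j * k * y - (1 - m) * p * (p ^ j) ^ 2) := by
      refine mul_left_cancel₀ (pow_pos (pow_pos hp0 i) 2).ne' ?_
      rw [hq] at h2 ⊢
      linear_combination h2
    rcases hpp.dvd_or_dvd (Dvd.intro _ h3.symm) with h | h
    · exact (hpp.dvd_or_dvd h).elim u2 u1
    · exact hy (hpp.dvd_of_dvd_pow h)
  · obtain ⟨j, rfl⟩ := Nat.exists_eq_add_of_le hi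
    set z : ℤ := p ^ j * y with hz
    have hz0 : z ≠ 0 := mul_ne_zero (pow_pos hp0 j).ne' (fun h => hy (h ▸ dvd_zero _))
    have h3 : k * (z * ((q - 1) * z - 2)) = m - 1 := by
      refine mul_left_cancel₀ (pow_pos (by omega : (0 : ℤ) < q) 2).ne' ?_
      have e : (p : ℤ) ^ (n + j) * y = q * z := by rw [hq, hz]; ring
      rw [e] at h2
      linear_combination h2
    clear_value z
    have h4 : q - 3 ≤ z * ((q - 1) * z - 2) := by
      have a1 : 0 ≤ z ^ 2 - 1 := by
        have := sq_pos_of_ne_zero hz0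
        omega
      have a2 : 0 ≤ z * (z - 1) := by
        rcases lt_or_gt_of_ne hz0 with h | h
        · exact mul_nonneg_of_nonpos_of_nonpos h.le (by omega)
        · exact mul_nonneg h.le (by omega)
      nlinarith [mul_nonneg (by omega : (0 : ℤ) ≤ q - 3) a1]
    have h6 : 1 * (q - 3) ≤ k * (z * ((q - 1) * z - 2)) :=
      mul_le_mul (by omega) h4 (by omega) hk.le
    omega

theorem arithB {p n : ℕ} (hp : p.Prime) (x y z q : ℤ) (hq : q = p ^ n) (hx : x ≠ 0) (hy : y ≠ 0)
    (hz : z ≠ 0) (bx : x ^ 2 < q ^ 2) (by' : y ^ 2 < q ^ 2) (bz : z ^ 2 < q ^ 2) (N : ℤ)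
    (h : q ^ 2 * N + (x * y + y * z + z * x) * q = x * y * z * (q - 1)) : p * q ∣ x * y := by
  have hpp : Prime (p : ℤ) := Nat.prime_iff_prime_int.1 hp
  have hp0 : (0 : ℤ) < p := by exact_mod_cast hp.pos
  have dec : ∀ c : ℤ, c ≠ 0 → c ^ 2 < q ^ 2 →
      ∃ (i : ℕ) (c' : ℤ), i < n ∧ ¬ (p : ℤ) ∣ c' ∧ c = p ^ i * c' := by
    intro c hc hb
    obtain ⟨i, c', h1, rfl⟩ := WfDvdMonoid.max_power_factor hc hpp.irreducible
    refine ⟨i, c', ?_, h1, rfl⟩
    by_contra hi
    obtain ⟨j, rfl⟩ := Nat.exists_eq_add_of_le (not_lt.1 hi)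
    have h2 : (p : ℤ) ^ j * c' ≠ 0 := fun h => hc (by rw [pow_add, mul_assoc, h, mul_zero])
    have h3 := sq_pos_of_ne_zero h2
    rw [pow_add, mul_assoc, mul_pow, ← hq] at hb
    nlinarith [sq_nonneg q]
  obtain ⟨i, x', hi, hx', rfl⟩ := dec x hx bx
  obtain ⟨j, y', hj, hy', rfl⟩ := dec y hy by'
  obtain ⟨k, z', hk, hz', rfl⟩ := dec z hz bz
  have hv : 2 * n ≤ i + j + k := by
    by_contra hv
    have h1 : (p : ℤ) ^ (i + j + k + 1) ∣ p ^ i * x' * (p ^ j * y') * (p ^ k * z') * (q - 1) := by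
      rw [← h, hq, add_mul, add_mul]
      refine Dvd.dvd.add ?_ (Dvd.dvd.add (Dvd.dvd.add ?_ ?_) ?_)
      · rw [← pow_mul]
        exact (pow_dvd_pow _ (by omega)).mul_right _
      · rw [show (p : ℤ) ^ i * x' * (p ^ j * y') * p ^ n = p ^ (i + j + n) * (x' * y') by ring]
        exact (pow_dvd_pow _ (by omega)).mul_right _
      · rw [show (p : ℤ) ^ j * y' * (p ^ k * z') * p ^ n = p ^ (j + k + n) * (y' * z') by ring]
        exact (pow_dvd_pow _ (by omega)).mul_right _
      · rw [show (p : ℤ) ^ k * z' * (p ^ i * x') * p ^ n = p ^ (k + i + n) * (z' * x') by ring]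
        exact (pow_dvd_pow _ (by omega)).mul_right _
    rw [show (p : ℤ) ^ i * x' * (p ^ j * y') * (p ^ k * z') * (q - 1) =
      p ^ (i + j + k) * (x' * y' * z' * (q - 1)) by ring, pow_succ,
      mul_dvd_mul_iff_left (pow_pos hp0 _).ne'] at h1
    rcases hpp.dvd_or_dvd h1 with h2 | h2
    · rcases hpp.dvd_or_dvd h2 with h2 | h2
      · exact (hpp.dvd_or_dvd h2).elim hx' hy'
      · exact hz' h2
    · have hpq : (p : ℤ) ∣ q := hq ▸ dvd_pow_self _ (by omega)
      exact hpp.not_dvd_one (by simpa using hpq.sub h2)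
  rw [hq, ← pow_succ', show (p : ℤ) ^ i * x' * (p ^ j * y') = p ^ (i + j) * (x' * y') by ring]
  exact (pow_dvd_pow _ (by omega)).mul_right _

end Pool.Agent.MP_7adc1e_nt.H83

namespace Pool.Agent.MP_7adc1e_nt.H83

open Finset Pool.Agent.MP_7adc1e_nt

theorem exists_third {R : Type} [DecidableEq R] [Infinite R] (T : Finset R) (hT : T.card ≤ 3)
    {y z : R} (hy : y ∈ T) (hz : z ∈ T) (hyz : y ≠ z) :
    ∃ x, x ≠ y ∧ x ≠ z ∧ ∀ t ∈ T, t = x ∨ t = y ∨ t = z := by
  have h1 : ((T.erase y).erase z).card ≤ 1 := by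
    rw [card_erase_of_mem (mem_erase.2 ⟨hyz.symm, hz⟩), card_erase_of_mem hy]
    omega
  have key : ∀ t ∈ T, t ∈ (T.erase y).erase z ∨ t = y ∨ t = z := by
    intro t ht
    by_cases h3 : t = y
    · exact Or.inr (Or.inl h3)
    by_cases h4 : t = z
    · exact Or.inr (Or.inr h4)
    exact Or.inl (mem_erase.2 ⟨h4, mem_erase.2 ⟨h3, ht⟩⟩)
  rcases ((T.erase y).erase z).eq_empty_or_nonempty with h | ⟨x, hx⟩
  · obtain ⟨x, hx⟩ := Infinite.exists_notMem_finset T
    refine ⟨x, fun h => hx (h ▸ hy), fun h => hx (h ▸ hz), fun t ht => ?_⟩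
    rcases key t ht with h3 | h3
    · rw [h] at h3
      simp at h3
    · exact Or.inr h3
  · refine ⟨x, (mem_erase.1 (mem_erase.1 hx).2).1, (mem_erase.1 hx).1, fun t ht => ?_⟩
    rcases key t ht with h3 | h3
    · exact Or.inl (card_le_one.1 h1 t h3 x hx)
    · exact Or.inr h3

theorem exists_two {R : Type} [DecidableEq R] [Nonempty R] (T : Finset R) (hT : T.card ≤ 2) :
    ∃ a b, ∀ t ∈ T, t = a ∨ t = b := by
  rcases T.eq_empty_or_nonempty with rfl | ⟨a, ha⟩
  · exact ⟨Classical.arbitrary R, Classical.arbitrary R, by simp⟩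
  have h1 : (T.erase a).card ≤ 1 := by
    rw [card_erase_of_mem ha]
    omega
  obtain ⟨b, hb⟩ := card_le_one_iff_subset_singleton.1 h1
  refine ⟨a, b, fun t ht => ?_⟩
  by_cases h : t = a
  · exact Or.inl h
  · exact Or.inr (mem_singleton.1 (hb (mem_erase.2 ⟨h, ht⟩)))

theorem sum_three {ι R : Type} [DecidableEq R] [CommRing R] (S : Finset ι) (W : ι → R)
    {x y z : R} (hxy : x ≠ y) (hxz : x ≠ z) (hyz : y ≠ z)
    (h : ∀ a ∈ S, W a = x ∨ W a = y ∨ W a = z) (g : R → R) :
    ∑ a ∈ S, g (W a) = ((S.filter fun a => W a = x).card : R) * g x +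
      ((S.filter fun a => W a = y).card : R) * g y +
      ((S.filter fun a => W a = z).card : R) * g z := by
  simp only [Finset.card_filter]
  push_cast
  simp only [Finset.sum_mul, ← Finset.sum_add_distrib]
  refine Finset.sum_congr rfl (fun a ha => ?_)
  rcases h a ha with h | h | h <;> rw [h] <;> simp [hxy, hxz, hyz, hxy.symm, hxz.symm, hyz.symm]

variable {L : Type} [Field L] [Fintype L] [DecidableEq L]

section

variable {ψ : AddChar L ℂ} (hψ : ψ ≠ 1) (f : L →*₀ L) (hf : Function.Injective f)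
  (h2 : (2 : L) ≠ 0) {p : ℕ} (hp : p.Prime) [CharP L p]

omit [Fintype L] [DecidableEq L] in
theorem psi_pow (z : L) : ψ z ^ p = 1 := by
  rw [← AddChar.map_nsmul_eq_pow, nsmul_eq_mul, CharP.cast_eq_zero, zero_mul,
    AddChar.map_zero_eq_one]

omit [DecidableEq L] in
theorem sum_psi_pow (c : ℕ) (a : L) :
    ∑ x, ψ (1 * f x - a * x) ^ c = Wv ψ f c (a * c) := by
  unfold Wv
  refine Finset.sum_congr rfl (fun x _ => ?_)
  rw [← AddChar.map_nsmul_eq_pow, nsmul_eq_mul]
  congr 1
  ring

include hp in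
omit [DecidableEq L] in
theorem Wv_integral (v a : L) : IsIntegral ℤ (Wv ψ f v a) :=
  IsIntegral.sum _ (fun x _ => IsIntegral.of_pow hp.pos (by rw [psi_pow]; exact isIntegral_one))

include hp in
omit [DecidableEq L] in
/-- If `f` fixes the prime field then all the sums are integers. -/
theorem int_of_prime (h : ∀ c : ℕ, f c = c) (a : L) : ∃ m : ℤ, Wv ψ f 1 a = m := by
  refine int_of_fixed hp _ (fun x => psi_pow _) (fun c h0 h1 => ?_)
  have hc : (c : L) ≠ 0 := by
    rw [Ne, CharP.cast_eq_zero_iff L p]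
    exact Nat.not_dvd_of_pos_of_lt h0 h1
  have h3 := Wv_scale (ψ := ψ) f hc 1 a
  rw [h, one_mul] at h3
  rw [sum_psi_pow f, h3]
  rfl

include hp hf in
omit [DecidableEq L] in
/-- The Galois action on the values. -/
theorem exists_tau {c : ℕ} (hc : (c : L) ≠ 0) : ∃ τ : L, τ ≠ 0 ∧ (τ = 1 → f c = c) ∧
    (∀ a, ∑ x, ψ (1 * f x - a * x) ^ c = Wv ψ f 1 (a * τ)) ∧
    ∀ a b, Wv ψ f 1 a = Wv ψ f 1 b ↔ Wv ψ f 1 (a * τ) = Wv ψ f 1 (b * τ) := by
  obtain ⟨t, ht0, ht1, ht⟩ := Wv_eq (ψ := ψ) f hf hc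
  have h1 : ∀ a, ∑ x, ψ (1 * f x - a * x) ^ c = Wv ψ f 1 (a * (c * t)) := fun a => by
    rw [sum_psi_pow f, ht, mul_assoc]
  have h3 : ∀ a b, Wv ψ f 1 a = Wv ψ f 1 b →
      Wv ψ f 1 (a * (c * t)) = Wv ψ f 1 (b * (c * t)) := fun a b h => by
    rw [← h1, ← h1]
    exact gal hp _ _ (fun x => psi_pow _) (fun x => psi_pow _) h c
  have h0 : (c : L) * t ≠ 0 := mul_ne_zero hc ht0
  refine ⟨c * t, h0, fun h => ?_, h1, fun a b => ⟨h3 a b, fun h => ?_⟩⟩
  · have h4 : f c * f t = 1 := by rw [← map_mul, h, map_one]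
    linear_combination (c : L) * h4 - f c * ht1
  · have h4 : ∀ i : ℕ, Wv ψ f 1 (a * (c * t) ^ (i + 1)) = Wv ψ f 1 (b * (c * t) ^ (i + 1)) := by
      intro i
      induction i with
      | zero => simpa using h
      | succ i ih =>
        have := h3 _ _ ih
        rwa [mul_assoc, mul_assoc, ← pow_succ] at this
    have h5 := h4 (Fintype.card L - 2)
    have h6 : Fintype.card L - 2 + 1 = Fintype.card L - 1 := by
      have := Fintype.one_lt_card (α := L)
      omega
    rwa [h6, FiniteField.pow_card_sub_one_eq_one _ h0, mul_one, mul_one] at h5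

theorem mult_eq (W : L → ℂ) {τ : L} (hτ : τ ≠ 0) (h : ∀ a b, W a = W b ↔ W (a * τ) = W (b * τ))
    (a : L) : ((univ.erase (0 : L)).filter fun b => W b = W (a * τ)).card =
      ((univ.erase (0 : L)).filter fun b => W b = W a).card := by
  symm
  refine Finset.card_bij (fun b _ => b * τ) ?_ ?_ ?_
  · intro b hb
    simp only [mem_filter, mem_erase, mem_univ, and_true] at hb ⊢
    exact ⟨mul_ne_zero hb.1 hτ, (h _ _).1 hb.2⟩
  · intro b _ b' _ e
    exact mul_right_cancel₀ hτ e
  · intro b hb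
    simp only [mem_filter, mem_erase, mem_univ, and_true] at hb ⊢
    refine ⟨b / τ, ⟨div_ne_zero hb.1 hτ, (h _ _).2 ?_⟩, div_mul_cancel₀ _ hτ⟩
    rw [div_mul_cancel₀ _ hτ, hb.2]

include hψ hf h2 in
theorem orth_tau {τ : L} (hτ : τ ≠ 0) (h1 : τ ≠ 1) :
    ∑ a, Wv ψ f 1 a * Wv ψ f 1 (a * τ) = 0 := by
  have h3 := f_ne f hf hτ
  have h4 : ∀ a, Wv ψ f 1 (a * τ) = Wv ψ f (f τ)⁻¹ a := fun a => by
    rw [← Wv_scale f hτ (f τ)⁻¹ a, inv_mul_cancel₀ h3]
  simp only [h4]
  rw [orth hψ f hf h2, if_neg]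
  intro h
  exact h1 (hf (by rw [map_one, ← inv_eq_one, ← h]))

include hψ hf h2 hp in
theorem stepA {n : ℕ} (hn : Fintype.card L = p ^ n) (h5 : 5 ≤ Fintype.card L)
    (T : Finset ℂ) (hT : T.card ≤ 3) (hW : ∀ a, a ≠ 0 → Wv ψ f 1 a ∈ T) (c : ℕ) :
    f c = c := by
  classical
  by_contra hne
  have hc : (c : L) ≠ 0 := fun h => hne (by rw [h, map_zero])
  obtain ⟨τ, hτ0, hτ1, -, hτ⟩ := exists_tau (ψ := ψ) f hf hp hc
  have hτ1' : τ ≠ 1 := fun h => hne (hτ1 h)
  set q := Fintype.card L with hq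
  have hq0 : (q : ℂ) ≠ 0 := by exact_mod_cast (by omega : q ≠ 0)
  set W := Wv ψ f 1 with hWdef
  have W0 : W 0 = 0 := Wv_zero hψ f hf one_ne_zero
  have o1 : ∑ a, W a * W (a * τ) = 0 := orth_tau hψ f hf h2 hτ0 hτ1'
  have o2 : ∑ a, W a * W a = (q : ℂ) ^ 2 := by
    have := orth hψ f hf h2 1 1
    rwa [if_pos rfl] at this
  have o3 : ∑ a, W a = q := sum_Wv hψ f 1
  obtain ⟨a0, ha0⟩ : ∃ a0, W a0 ≠ W (a0 * τ) := by
    by_contra h
    push Not at h
    simp only [← h] at o1
    rw [o2] at o1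
    exact pow_ne_zero 2 hq0 o1
  have ha00 : a0 ≠ 0 := by
    rintro rfl
    simp at ha0
  obtain ⟨x, hxy, hxz, hx⟩ := exists_third T hT (hW a0 ha00) (hW _ (mul_ne_zero ha00 hτ0)) ha0
  set y := W a0 with hy
  set z := W (a0 * τ) with hz
  set S := univ.erase (0 : L) with hS
  have hS3 : ∀ a ∈ S, W a = x ∨ W a = y ∨ W a = z := fun a ha => hx _ (hW a (mem_erase.1 ha).1)
  have s3 := sum_three S W hxy hxz ha0 hS3
  have hm := mult_eq W hτ0 hτ a0
  rw [← hz, ← hy, ← hS] at hm
  rw [hm] at s3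
  set k := (S.filter fun a => W a = x).card with hk
  set m := (S.filter fun a => W a = y).card with hmdef
  have hm0 : m ≠ 0 := Finset.card_ne_zero.2 ⟨a0, mem_filter.2 ⟨mem_erase.2 ⟨ha00, mem_univ _⟩, rfl⟩⟩
  have er : ∀ g : L → ℂ, g 0 = 0 → ∑ a ∈ S, g a = ∑ a, g a := fun g hg =>
    Finset.sum_erase _ hg
  have c0 : k + m + m = q - 1 := by
    have := s3 (fun _ => 1)
    rw [Finset.sum_const, hS, card_erase_of_mem (mem_univ _), card_univ] at this
    simp only [nsmul_eq_mul, mul_one] at this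
    exact_mod_cast this.symm
  have c1 : (k : ℂ) * x + m * y + m * z = q := by
    rw [← o3, ← er W W0]
    exact (s3 id).symm
  have c2 : (k : ℂ) * (x * x) + m * (y * y) + m * (z * z) = (q : ℂ) ^ 2 := by
    rw [← o2, ← er (fun a => W a * W a) (by simp [W0])]
    exact (s3 (fun u => u * u)).symm
  have iy : IsIntegral ℤ y := Wv_integral f hp _ _
  have iz : IsIntegral ℤ z := Wv_integral f hp _ _
  have fin : ∀ e : ℕ, m ∣ q → (e + 2) * m = q - 1 → e ≤ 1 → False := by
    intro e h1 h3 he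
    have h4 : m ∣ q - 1 := Dvd.intro_left _ h3
    have h6 : m ∣ 1 := (Nat.dvd_sub_iff_right (by omega) h1).1 h4
    rw [Nat.dvd_one] at h6
    rw [h6] at h3
    omega
  by_cases hk0 : k = 0
  · refine fin 0 (dvd_of_integral (iy.add iz) hm0 ?_) (by omega) (by omega)
    rw [hk0] at c1
    push_cast at c1
    linear_combination c1
  obtain ⟨a1, ha1⟩ := Finset.card_ne_zero.1 hk0
  obtain ⟨ha1S, ha1x⟩ := mem_filter.1 ha1
  by_cases hkm : k = m
  · refine fin 1 (dvd_of_integral (((ha1x ▸ Wv_integral f hp 1 a1 : IsIntegral ℤ x).add iy).add iz)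
      hm0 ?_) (by omega) (by omega)
    rw [hkm] at c1
    linear_combination c1
  have fixx : ∀ σ : L, σ ≠ 0 → (∀ a b, W a = W b ↔ W (a * σ) = W (b * σ)) → W (a1 * σ) = x := by
    intro σ hσ0 hσ
    have h1 := mult_eq W hσ0 hσ a1
    rw [ha1x, ← hS, ← hk] at h1
    rcases hS3 (a1 * σ) (mem_erase.2 ⟨mul_ne_zero (mem_erase.1 ha1S).1 hσ0, mem_univ _⟩) with
      h | h | h
    · exact h
    · rw [h] at h1
      exact absurd h1.symm hkm
    · rw [h, hm] at h1
      exact absurd h1.symm hkm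
  obtain ⟨x', hx'⟩ : ∃ x' : ℤ, x = x' := by
    rw [← ha1x]
    refine int_of_fixed hp _ (fun x => psi_pow _) (fun d h0 h1 => ?_)
    have hd : (d : L) ≠ 0 := by
      rw [Ne, CharP.cast_eq_zero_iff L p]
      exact Nat.not_dvd_of_pos_of_lt h0 h1
    obtain ⟨σ, hσ0, -, hσ1, hσ⟩ := exists_tau (ψ := ψ) f hf hp hd
    rw [hσ1]
    exact (fixx σ hσ0 hσ).trans ha1x.symm
  have c3 : (k : ℂ) * (x * x) + m * (y * z) + m * (y * z) = 0 := by
    have h1 := s3 (fun u => if u = x then x * x else y * z)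
    simp only [if_true, if_neg hxy.symm, if_neg hxz.symm] at h1
    rw [← h1, ← o1, ← er (fun a => W a * W (a * τ)) (by simp [W0])]
    refine Finset.sum_congr rfl (fun a ha => ?_)
    have ht := fixx τ hτ0 hτ
    rcases hS3 a ha with h | h | h
    · rw [if_pos h, (hτ a a1).1 (h.trans ha1x.symm), ht, h]
    · rw [if_neg (by rw [h]; exact hxy.symm), (hτ a a0).1 h, h]
    · rw [if_neg (by rw [h]; exact hxz.symm), h]
      rcases hS3 (a * τ) (mem_erase.2 ⟨mul_ne_zero (mem_erase.1 ha).1 hτ0, mem_univ _⟩) with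
        h3 | h3 | h3
      · exact absurd ((ha1x.symm.trans ((hτ a1 a).2 (ht.trans h3.symm))).trans h) hxz
      · rw [h3, mul_comm]
      · exact absurd (((hτ a0 a).2 h3.symm).trans h) ha0
  have d1 : m ∣ q ^ 2 := dvd_of_integral ((iy.sub iz).pow 2) hm0 (by
    push_cast
    linear_combination c2 - c3)
  have c0' : 2 * (m : ℤ) + k = q - 1 := by omega
  have c0'' : 2 * (m : ℂ) + k = q - 1 := by exact_mod_cast c0'
  have := arithA (n := n) hp m k x' q (by rw [hn]; push_cast; rfl) (by omega) (by omega) (by omega)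
    (by exact_mod_cast d1) c0' (by
      have : (k : ℂ) * (q - 1) * x' ^ 2 - 2 * q * k * x' + (1 - m) * q ^ 2 = 0 := by
        rw [← hx', ← c0'']
        linear_combination m * c2 + m * c3 - (m * y + m * z + q - k * x) * c1
      exact_mod_cast this)
  have hm1 : (m : ℂ) = 1 := by exact_mod_cast this.1
  have hx0 : x = 0 := by rw [hx', this.2]; simp
  rw [hm1, hx0] at c3
  have : y * z = 0 := by linear_combination c3 / 2
  rcases mul_eq_zero.1 this with h | h
  · exact hxy (hx0.trans h.symm)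
  · exact hxz (hx0.trans h.symm)

include hψ hf h2 hp in
theorem stepB {n : ℕ} (hn : Fintype.card L = p ^ n) (hne : rep f 1 1 ≠ Fintype.card L)
    (w : L → ℤ) (hw : ∀ a, Wv ψ f 1 a = w a) (T : Finset ℤ) (hT : T.card ≤ 3)
    (hW : ∀ a, a ≠ 0 → w a ∈ T) : ∃ a b : ℤ, ∀ x, w x = 0 ∨ w x = a ∨ w x = b := by
  classical
  by_contra hcon
  have w0 : w 0 = 0 := by
    have := Wv_zero hψ f hf one_ne_zero
    rw [hw] at this
    exact_mod_cast this
  have hcon' : ∀ a b : ℤ, ¬ ∀ x, x ≠ 0 → w x = 0 ∨ w x = a ∨ w x = b := by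
    intro a b h
    refine hcon ⟨a, b, fun x => ?_⟩
    by_cases hx : x = 0
    · exact Or.inl (hx ▸ w0)
    · exact h x hx
  have nz : ∀ a, a ≠ 0 → w a ≠ 0 := by
    intro a ha h
    obtain ⟨u, v, huv⟩ := exists_two (T.erase 0) (by
      rw [card_erase_of_mem (h ▸ hW a ha)]
      omega)
    refine hcon' u v (fun x hx => ?_)
    by_cases h0 : w x = 0
    · exact Or.inl h0
    · exact Or.inr (huv _ (mem_erase.2 ⟨h0, hW x hx⟩))
  set q : ℤ := (Fintype.card L : ℤ) with hq
  have hq1 : 1 < q := by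
    have := Fintype.one_lt_card (α := L)
    omega
  have s1 : ∑ a, w a = q := by
    have := sum_Wv hψ f 1
    simp only [hw] at this
    rw [hq]
    exact_mod_cast this
  have s2 : ∑ a, w a ^ 2 = q ^ 2 := by
    have := orth hψ f hf h2 1 1
    simp only [hw, if_true, ← sq] at this
    rw [hq]
    exact_mod_cast this
  have s3 : ∑ a, w a ^ 3 = q ^ 2 * rep f 1 1 := by
    have := third hψ f hf h2 1
    simp only [hw, ← pow_succ] at this
    rw [hq]
    exact_mod_cast this
  obtain ⟨a1, ha1, hmax⟩ := Finset.exists_max_image (univ.filter fun a => w a < 0) w (by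
    by_contra h
    refine hne (add_of_nonneg hψ f hf h2 w hw (fun a => ?_))
    by_contra h'
    exact h ⟨a, mem_filter.2 ⟨mem_univ _, not_le.1 h'⟩⟩)
  obtain ⟨a2, ha2, hmin⟩ := Finset.exists_min_image (univ.filter fun a => 0 < w a) w (by
    by_contra h
    have : ∑ a, w a ≤ 0 := Finset.sum_nonpos (fun a _ => by
      by_contra h'
      exact h ⟨a, mem_filter.2 ⟨mem_univ _, not_le.1 h'⟩⟩)
    omega)
  have hA := (mem_filter.1 ha1).2
  have hB := (mem_filter.1 ha2).2
  have n1 : a1 ≠ 0 := by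
    rintro rfl
    omega
  have n2 : a2 ≠ 0 := by
    rintro rfl
    omega
  have n12 : a1 ≠ a2 := by
    rintro rfl
    omega
  have bd : ∀ a, a ≠ 0 → w a ^ 2 < q ^ 2 := by
    have h1 : ∀ a b, a ≠ b → b ≠ 0 → w a ^ 2 < q ^ 2 := by
      intro a b hab hb
      have h3 : ∑ c ∈ {a, b}, w c ^ 2 ≤ ∑ c, w c ^ 2 :=
        Finset.sum_le_sum_of_subset_of_nonneg (subset_univ _) (fun c _ _ => sq_nonneg _)
      rw [Finset.sum_pair hab, s2] at h3
      have := sq_pos_of_ne_zero (nz b hb)
      omega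
    intro a _
    by_cases h : a = a1
    · exact h1 a a2 (h ▸ n12) n2
    · exact h1 a a1 h n1
  obtain ⟨z, -, -, hz⟩ := exists_third T hT (hW a1 n1) (hW a2 n2) (by omega)
  obtain ⟨a3, n3, ha3⟩ : ∃ a3, a3 ≠ 0 ∧ w a3 = z := by
    by_contra h
    push Not at h
    exact hcon' (w a1) (w a2) (fun x hx => Or.inr ((hz _ (hW x hx)).resolve_left (h x hx)))
  set A := w a1 with hAdef
  set B := w a2 with hBdef
  have er : ∀ g : L → ℤ, ∑ a ∈ univ.erase (0 : L), g a = ∑ a, g a - g 0 := fun g => by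
    rw [← Finset.add_sum_erase _ _ (mem_univ (0 : L))]
    ring
  have cub : ∑ a ∈ univ.erase (0 : L), (w a ^ 3 - (A + B + z) * w a ^ 2 +
      (A * B + B * z + z * A) * w a - A * B * z) = 0 := by
    refine Finset.sum_eq_zero (fun a ha => ?_)
    rcases hz _ (hW a (mem_erase.1 ha).1) with h | h | h <;> rw [h] <;> ring
  have qd : 0 ≤ ∑ a ∈ univ.erase (0 : L), (w a ^ 2 - (A + B) * w a + A * B) := by
    refine Finset.sum_nonneg (fun a ha => ?_)
    rcases lt_or_gt_of_ne (nz a (mem_erase.1 ha).1) with h | h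
    · have := hmax a (mem_filter.2 ⟨mem_univ _, h⟩)
      nlinarith [mul_nonneg (sub_nonneg.2 this) (by omega : 0 ≤ B - w a)]
    · have := hmin a (mem_filter.2 ⟨mem_univ _, h⟩)
      nlinarith [mul_nonneg (sub_nonneg.2 this) (by omega : 0 ≤ w a - A)]
  rw [er] at cub qd
  simp only [Finset.sum_sub_distrib, Finset.sum_add_distrib, ← Finset.mul_sum, s1, s2, s3, w0,
    Finset.sum_const, card_univ, nsmul_eq_mul, ← hq] at cub qd
  have hd := arithB (n := n) hp A B z q (by rw [hq, hn]; push_cast; rfl) hA.ne hB.ne'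
    (ha3 ▸ nz a3 n3) (bd a1 n1) (bd a2 n2) (ha3 ▸ bd a3 n3) (rep f 1 1 - (A + B + z))
    (by linear_combination cub)
  have hAB : 0 < -(A * B) := by nlinarith
  have h6 := Int.le_of_dvd hAB hd.neg_right
  have hp3 : (3 : ℤ) ≤ p := by
    have h7 : p ≠ 2 := by
      rintro rfl
      exact h2 (CharP.cast_eq_zero L 2)
    have := hp.two_le
    omega
  have hq3 : 3 ≤ q := by
    have h7 : ({0, a1, a2} : Finset L).card ≤ Fintype.card L := card_le_univ _
    rw [card_insert_of_notMem (by simp [n1.symm, n2.symm]), card_pair n12] at h7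
    omega
  have hAq : -q < A := by
    have := abs_lt_of_sq_lt_sq (bd a1 n1) (by omega)
    exact (abs_lt.1 this).1
  have h8 : 3 * q * (q - 1) ≤ -(A * B) * (q - 1) :=
    mul_le_mul_of_nonneg_right (by nlinarith) (by omega)
  nlinarith

end

end Pool.Agent.MP_7adc1e_nt.H83

namespace Pool.Agent.MP_7adc1e_nt.H83

open Finset Pool.Agent.MP_7adc1e_nt

theorem sum_fib {α β R : Type} [Fintype α] [Fintype β] [DecidableEq β] [CommSemiring R]
    (g : α → β) (φ : β → R) :
    ∑ x, φ (g x) = ∑ v, ((univ.filter fun x => g x = v).card : R) * φ v := by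
  rw [← Finset.sum_fiberwise (s := univ) (g := g)]
  refine Finset.sum_congr rfl (fun w _ => ?_)
  rw [Finset.sum_congr rfl (g := fun _ => φ w) (fun x hx => by rw [(mem_filter.1 hx).2]),
    Finset.sum_const, nsmul_eq_mul]

variable {K L : Type} [Field K] [Fintype K] [DecidableEq K] [Field L] [Fintype L] [DecidableEq L]

theorem hyp_sum {R : Type} [AddCommMonoid R] {b : K} (hb : b ≠ 0) (F : K → K → R) :
    ∑ c, ∑ d, (if c * d = b then F c d else 0) = ∑ c ∈ univ.erase 0, F c (b / c) := by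
  rw [← Finset.add_sum_erase _ _ (mem_univ (0 : K))]
  simp only [zero_mul, if_neg hb.symm, Finset.sum_const_zero, zero_add]
  refine Finset.sum_congr rfl (fun c hc => ?_)
  have hc0 := (mem_erase.1 hc).1
  rw [Finset.sum_eq_single (b / c)]
  · rw [if_pos (by field_simp)]
  · intro d _ hd
    rw [if_neg (fun h => hd (by rw [← h]; field_simp))]
  · simp

/-- The group algebra of the multiplicative group has no nilpotent elements. -/
theorem red (U : K → K) (h : ∀ b, ∑ c, ∑ d, (if c * d = b then U c * U d else 0) = 0) (c0 : K) :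
    U c0 = 0 := by
  have h1 : ∀ e : ℕ, ∑ c, U c * c ^ e = 0 := by
    intro e
    have h3 : (∑ c, U c * c ^ e) * (∑ c, U c * c ^ e) =
        ∑ b, b ^ e * ∑ c, ∑ d, (if c * d = b then U c * U d else 0) := by
      simp only [Finset.mul_sum, Finset.sum_mul]
      rw [Finset.sum_comm]
      conv_rhs => rw [Finset.sum_comm]
      refine Finset.sum_congr rfl (fun c _ => ?_)
      conv_rhs => rw [Finset.sum_comm]
      refine Finset.sum_congr rfl (fun d _ => ?_)
      simp only [mul_ite, mul_zero, Finset.sum_ite_eq, mem_univ, if_true]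
      ring
    simp only [h, mul_zero, Finset.sum_const_zero] at h3
    exact mul_self_eq_zero.1 h3
  have h3 : ∑ c, U c * (c - c0) ^ (Fintype.card K - 1) = 0 := by
    simp only [sub_eq_add_neg, add_pow, Finset.mul_sum]
    rw [Finset.sum_comm]
    refine Finset.sum_eq_zero (fun i _ => ?_)
    simp only [← mul_assoc, ← Finset.sum_mul, h1, zero_mul]
  have h4 := h1 0
  simp only [pow_zero, mul_one] at h4
  have h5 : ∑ c, (U c - U c * (c - c0) ^ (Fintype.card K - 1)) = U c0 := by
    rw [Finset.sum_eq_single c0]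
    · have := Fintype.one_lt_card (α := K)
      rw [sub_self, zero_pow (by omega), mul_zero, sub_zero]
    · intro c _ hc
      rw [FiniteField.pow_card_sub_one_eq_one _ (sub_ne_zero.2 hc), mul_one, sub_self]
    · simp
  rw [← h5, Finset.sum_sub_distrib, h3, h4, sub_self]

theorem half_val {p : ℕ} (hp : p.Prime) [CharP K p] (w : K → ℤ) (w0 : w 0 = 0) (c1 : K)
    (hc1 : w c1 ≠ 0) (j : ℕ)
    (h : ∀ b, b ≠ 0 → (p : ℤ) ^ j ∣ ∑ c, ∑ d, (if c * d = b then w c * w d else 0)) :
    ∃ i, j ≤ 2 * i ∧ ∀ c, (p : ℤ) ^ i ∣ w c := by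
  classical
  have hex : ∃ i, ¬ ∀ c, (p : ℤ) ^ (i + 1) ∣ w c := by
    refine ⟨(w c1).natAbs, fun h => ?_⟩
    have h1 := Int.natAbs_dvd_natAbs.2 (h c1)
    rw [Int.natAbs_pow, Int.natAbs_natCast] at h1
    have h3 := Nat.le_of_dvd (Int.natAbs_pos.2 hc1) h1
    have h4 := Nat.lt_pow_self (n := (w c1).natAbs + 1) hp.one_lt
    omega
  have h1 : ∀ c, (p : ℤ) ^ Nat.find hex ∣ w c := by
    rcases Nat.eq_zero_or_pos (Nat.find hex) with h0 | h0
    · rw [h0]
      simp
    · have := Nat.find_min hex (m := Nat.find hex - 1) (by omega)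
      rw [not_not, Nat.sub_add_cancel h0] at this
      exact this
  have h3 := Nat.find_spec hex
  refine ⟨Nat.find hex, ?_, h1⟩
  generalize Nat.find hex = i at h1 h3
  by_contra hj
  choose u hu using h1
  have hp0 : (p : ℤ) ^ i ≠ 0 := pow_ne_zero _ (by exact_mod_cast hp.ne_zero)
  have u0 : u 0 = 0 := by
    have := hu 0
    rw [w0] at this
    exact (mul_eq_zero.1 this.symm).resolve_left hp0
  apply h3
  intro c
  rw [hu, pow_succ]
  refine mul_dvd_mul_left _ ((CharP.intCast_eq_zero_iff K p _).1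
    (red (fun c => (u c : K)) (fun b => ?_) c))
  by_cases hb : b = 0
  · refine Finset.sum_eq_zero (fun c _ => Finset.sum_eq_zero (fun d _ => ?_))
    split_ifs with h4
    · rw [hb] at h4
      rcases mul_eq_zero.1 h4 with h5 | h5 <;> simp [h5, u0]
    · rfl
  · have h4 := (pow_dvd_pow (p : ℤ) (by omega : 2 * i + 1 ≤ j)).trans (h b hb)
    have h5 : ∑ c, ∑ d, (if c * d = b then w c * w d else 0) =
        (p : ℤ) ^ (2 * i) * ∑ c, ∑ d, (if c * d = b then u c * u d else 0) := by
      simp only [Finset.mul_sum, mul_ite, mul_zero, hu]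
      refine Finset.sum_congr rfl (fun c _ => Finset.sum_congr rfl (fun d _ => ?_))
      split_ifs
      · ring
      · rfl
    rw [h5, pow_succ, mul_dvd_mul_iff_left (pow_ne_zero _ (by exact_mod_cast hp.ne_zero))] at h4
    have h6 := (CharP.intCast_eq_zero_iff K p _).2 h4
    push_cast at h6
    exact h6

section

variable (ι : K →+* L) (σ : L →+* L) (hσι : ∀ c, σ (ι c) = ι c)
  (hL : Fintype.card L = Fintype.card K ^ 2) (T N : L → K) (hT : ∀ x, ι (T x) = x + σ x)
  (hN : ∀ x, ι (N x) = x * σ x)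

include hσι hL hT hN in
theorem count_two (v : K × K) : (univ.filter fun x => (T x, N x) = v).card +
    (univ.filter fun y : K × K => (y.1 + y.2, y.1 * y.2) = v).card = 2 := by
  have hle : ∀ v : K × K, (univ.filter fun x => (T x, N x) = v).card +
      (univ.filter fun y : K × K => (y.1 + y.2, y.1 * y.2) = v).card ≤ 2 := by
    rintro ⟨t, m⟩
    set A := univ.filter fun x => (T x, N x) = (t, m) with hA
    set B := univ.filter fun y : K × K => (y.1 + y.2, y.1 * y.2) = (t, m) with hB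
    have hBi : (B.image fun y => ι y.1).card = B.card := by
      refine Finset.card_image_of_injOn (fun y hy z hz e => ?_)
      have h1 := ι.injective e
      have h3 := (Prod.ext_iff.1 (mem_filter.1 hy).2).1
      have h4 := (Prod.ext_iff.1 (mem_filter.1 hz).2).1
      simp only at h3 h4
      exact Prod.ext h1 (by linear_combination h3 - h4 - h1)
    rw [← hBi]
    have rA : ∀ x ∈ A, x * (ι t - x) = ι m := by
      intro x hx
      obtain ⟨h1, h3⟩ := Prod.ext_iff.1 (mem_filter.1 hx).2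
      simp only at h1 h3
      rw [← h1, ← h3, hT, hN]
      ring
    have rB : ∀ x ∈ B.image fun y => ι y.1, x * (ι t - x) = ι m := by
      intro x hx
      obtain ⟨y, hy, rfl⟩ := mem_image.1 hx
      obtain ⟨h1, h3⟩ := Prod.ext_iff.1 (mem_filter.1 hy).2
      simp only at h1 h3
      rw [← h1, ← h3, map_add, map_mul]
      ring
    have rr : ∀ x x' : L, x * (ι t - x) = ι m → x' * (ι t - x') = ι m →
        x' = x ∨ x' = ι t - x := by
      intro x x' h h'
      have : (x' - x) * (x' - (ι t - x)) = 0 := by linear_combination h - h'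
      rcases mul_eq_zero.1 this with h1 | h1
      · exact Or.inl (sub_eq_zero.1 h1)
      · exact Or.inr (sub_eq_zero.1 h1)
    generalize hB' : (B.image fun y => ι y.1) = B' at rB
    by_cases hd : Disjoint A B'
    · rw [← card_union_of_disjoint hd]
      rcases (A ∪ B').eq_empty_or_nonempty with h | ⟨x, hx⟩
      · simp [h]
      · have r : ∀ x ∈ A ∪ B', x * (ι t - x) = ι m := fun x hx =>
          (mem_union.1 hx).elim (rA x) (rB x)
        refine le_trans (card_le_card (t := {x, ι t - x}) (fun x' hx' => ?_)) card_le_two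
        simpa using rr x x' (r x hx) (r x' hx')
    · obtain ⟨x, hx1, hx2⟩ := Finset.not_disjoint_iff.1 hd
      have h1 : ι t - x = x := by
        rw [← hB'] at hx2
        obtain ⟨y, -, rfl⟩ := mem_image.1 hx2
        have h3 := (Prod.ext_iff.1 (mem_filter.1 hx1).2).1
        simp only at h3
        rw [← h3, hT, hσι]
        ring
      have h3 : ∀ S : Finset L, (∀ x ∈ S, x * (ι t - x) = ι m) → S.card ≤ 1 := by
        intro S hS
        refine le_trans (card_le_card (t := {x}) (fun x' hx' => ?_)) (by simp)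
        have := rr x x' (rA x hx1) (hS x' hx')
        rw [h1, or_self] at this
        simpa using this
      have := h3 A rA
      have := h3 B' rB
      omega
  have s1 := sum_fib (R := ℕ) (fun x => (T x, N x)) (fun _ => 1)
  have s2 := sum_fib (R := ℕ) (fun y : K × K => (y.1 + y.2, y.1 * y.2)) (fun _ => 1)
  simp only [Finset.sum_const, card_univ, smul_eq_mul, mul_one, Nat.cast_id] at s1 s2
  refine (Finset.sum_eq_sum_iff_of_le (s := univ) (fun v _ => hle v)).1 ?_ v (mem_univ _)
  rw [Finset.sum_add_distrib, ← s1, ← s2, hL]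
  simp only [Finset.sum_const, card_univ, smul_eq_mul, Fintype.card_prod]
  ring

include hσι hL hT hN in
theorem lift_sum (φ : K → K → ℂ) :
    ∑ x, φ (T x) (N x) + ∑ y, ∑ z, φ (y + z) (y * z) = 2 * ∑ m, ∑ t, φ t m := by
  have s1 := sum_fib (fun x => (T x, N x)) (fun v => φ v.1 v.2)
  have s2 := sum_fib (fun y : K × K => (y.1 + y.2, y.1 * y.2)) (fun v => φ v.1 v.2)
  rw [Fintype.sum_prod_type] at s2
  simp only at s1 s2
  rw [s1, s2, ← Finset.sum_add_distrib, Finset.sum_comm, ← Fintype.sum_prod_type'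
    (f := fun t m => φ t m), Finset.mul_sum]
  refine Finset.sum_congr rfl (fun v _ => ?_)
  rw [← add_mul, ← Nat.cast_add, count_two ι σ hσι hL T N hT hN]
  norm_num

variable {ψ : AddChar K ℂ} (hψ : ψ ≠ 1) {ψL : AddChar L ℂ} (hψL : ∀ x, ψL x = ψ (T x))
  (f : L →*₀ L) (hf : Function.Injective f) (g : K →*₀ K) (hg : ∀ c, ι (g c) = f (ι c))
  (hcomm : ∀ x, f (σ x) = σ (f x))

include hσι hL hT hN hψ hψL hf hg hcomm in
theorem descent {b : K} (hb : b ≠ 0) :
    ∑ a, (if N a = b then Wv ψL f 1 a else 0) =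
      ∑ c, ∑ d, (if c * d = b then Wv ψ g 1 c * Wv ψ g 1 d else 0) := by
  have ls := lift_sum ι σ hσι hL T N hT hN
  have hgi : Function.Injective g := fun c d h => ι.injective (hf (by rw [← hg, ← hg, h]))
  have s0 : ∑ t, ψ t = 0 := AddChar.sum_eq_zero_of_ne_one hψ
  have s0' : ∀ z : K, z ≠ 0 → ∑ t ∈ univ.erase (0 : K), ψ (t * z) = -1 := by
    intro z hz
    have := sum_char hψ z
    rw [if_neg hz, ← Finset.add_sum_erase _ _ (mem_univ (0 : K)), zero_mul,
      AddChar.map_zero_eq_one] at this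
    linear_combination this
  have Nmul : ∀ x y, N (x * y) = N x * N y := fun x y => ι.injective (by
    rw [map_mul, hN, hN, hN, map_mul]
    ring)
  have N0 : ∀ x, N x = 0 ↔ x = 0 := fun x => by
    rw [← map_eq_zero_iff ι ι.injective, hN, mul_eq_zero, map_eq_zero, or_self]
  have Nf : ∀ x, N (f x) = g (N x) := fun x => ι.injective (by
    rw [hg, hN, hN, map_mul, hcomm])
  set Kl : K → ℂ := fun m => ∑ y, ∑ z, if y * z = m then ψ (-(y + z)) else 0 with hKl
  have k1 : ∀ m, ∑ u, (if N u = m then ψL (-u) else 0) = -Kl m := by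
    intro m
    have h1 := ls (fun t m' => if m' = m then ψ (-t) else 0)
    have h3 : ∑ m', ∑ t, (if m' = m then ψ (-t) else 0) = 0 := by
      refine Finset.sum_eq_zero (fun m' _ => ?_)
      split_ifs
      · rw [← s0]
        exact Equiv.sum_comp (Equiv.neg K) ψ
      · simp
    have h4 : ∀ u, ψL (-u) = ψ (-T u) := fun u => by
      rw [AddChar.map_neg_eq_inv, AddChar.map_neg_eq_inv, hψL]
    simp only [h4]
    rw [h3] at h1
    linear_combination h1
  have k0 : Kl 0 = -1 := by
    have := k1 0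
    simp only [N0, Finset.sum_ite_eq', mem_univ, if_true, neg_zero,
      AddChar.map_zero_eq_one] at this
    linear_combination this
  have r1 : ∑ _c ∈ univ.erase (0 : K), (1 : ℂ) = Fintype.card K - 1 := by
    rw [Finset.sum_const, card_erase_of_mem (mem_univ _), card_univ, nsmul_eq_mul, mul_one,
      Nat.cast_sub Fintype.card_pos, Nat.cast_one]
  have cL : ∑ a, (if N a = b then (1 : ℂ) else 0) = Fintype.card K + 1 := by
    have h1 := ls (fun _ m => if m = b then 1 else 0)
    rw [hyp_sum hb (fun _ _ => (1 : ℂ)), r1, Finset.sum_comm] at h1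
    simp only [Finset.sum_ite_eq', mem_univ, if_true, Finset.sum_const, card_univ, nsmul_eq_mul,
      mul_one] at h1
    linear_combination h1
  have inL : ∀ x, ∑ a, (if N a = b then ψL (-(a * x)) else 0) =
      -Kl (b * N x) + if x = 0 then (Fintype.card K : ℂ) else 0 := by
    intro x
    by_cases hx : x = 0
    · subst hx
      simp only [mul_zero, neg_zero, AddChar.map_zero_eq_one, cL, (N0 0).2 rfl, k0, if_true]
      ring
    · rw [if_neg hx, add_zero, ← k1]
      conv_rhs => rw [← Equiv.sum_comp (Equiv.mulRight₀ x hx)]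
      refine Finset.sum_congr rfl (fun a _ => ?_)
      have : N x ≠ 0 := fun h => hx ((N0 x).1 h)
      simp only [Equiv.mulRight₀_apply, Nmul, mul_left_inj' this]
  have inK : ∀ y z, ∑ c, ∑ d, (if c * d = b then ψ (-(c * y + d * z)) else 0) =
      Kl (b * (y * z)) + if y = 0 then (if z = 0 then (Fintype.card K : ℂ) else 0) else 0 := by
    intro y z
    by_cases hy : y = 0
    · subst hy
      by_cases hz : z = 0
      · subst hz
        simp only [mul_zero, add_zero, neg_zero, AddChar.map_zero_eq_one, k0, if_true]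
        rw [hyp_sum hb (fun _ _ => (1 : ℂ)), r1]
        ring
      · rw [Finset.sum_comm]
        simp only [mul_zero, zero_add, k0, if_true, if_neg hz, mul_comm _ (_ : K)]
        have := hyp_sum hb (fun d _ => ψ (d * (-z)))
        rw [s0' _ (neg_ne_zero.2 hz)] at this
        rw [add_zero, ← this]
        refine Finset.sum_congr rfl (fun c _ => Finset.sum_congr rfl (fun d _ => ?_))
        simp only [mul_neg, mul_comm]
    · by_cases hz : z = 0
      · subst hz
        simp only [mul_zero, add_zero, k0, if_neg hy]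
        have := hyp_sum hb (fun d _ => ψ (d * (-y)))
        rw [s0' _ (neg_ne_zero.2 hy)] at this
        rw [← this]
        simp only [mul_neg]
      · rw [if_neg hy, add_zero, hKl]
        simp only
        conv_rhs => rw [← Equiv.sum_comp (Equiv.mulRight₀ y hy)]
        refine Finset.sum_congr rfl (fun c _ => ?_)
        conv_rhs => rw [← Equiv.sum_comp (Equiv.mulRight₀ z hz)]
        refine Finset.sum_congr rfl (fun d _ => ?_)
        simp only [Equiv.mulRight₀_apply]
        rw [show c * y * (d * z) = c * d * (y * z) by ring]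
        simp only [mul_left_inj' (mul_ne_zero hy hz)]
  have eL : ∑ a, (if N a = b then Wv ψL f 1 a else 0) =
      ∑ x, ψL (f x) * ∑ a, (if N a = b then ψL (-(a * x)) else 0) := by
    simp only [Finset.mul_sum]
    rw [Finset.sum_comm]
    refine Finset.sum_congr rfl (fun a _ => ?_)
    split_ifs
    · unfold Wv
      refine Finset.sum_congr rfl (fun x _ => ?_)
      rw [← AddChar.map_add_eq_mul, one_mul, sub_eq_add_neg]
    · simp
  have eK : ∑ c, ∑ d, (if c * d = b then Wv ψ g 1 c * Wv ψ g 1 d else 0) =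
      ∑ y, ∑ z, ψ (g y + g z) *
        ∑ c, ∑ d, (if c * d = b then ψ (-(c * y + d * z)) else 0) := by
    simp only [Finset.mul_sum]
    rw [← Fintype.sum_prod_type', ← Fintype.sum_prod_type']
    conv_rhs => arg 2; ext yz; rw [← Fintype.sum_prod_type']
    rw [Finset.sum_comm]
    refine Finset.sum_congr rfl (fun cd _ => ?_)
    split_ifs
    · unfold Wv
      rw [Finset.sum_mul_sum, ← Fintype.sum_prod_type']
      refine Finset.sum_congr rfl (fun x _ => ?_)
      rw [← AddChar.map_add_eq_mul, ← AddChar.map_add_eq_mul]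
      congr 1
      ring
    · simp
  obtain ⟨g', hg'⟩ := hgi.hasLeftInverse
  have h1 := ls (fun t m => ψ t * Kl (b * g' m))
  simp only [← Finset.sum_mul, s0, zero_mul, Finset.sum_const_zero, mul_zero] at h1
  rw [← sum_f f hf, ← sum_f g hgi] at h1
  conv at h1 => lhs; arg 2; arg 2; ext y; rw [← sum_f g hgi]
  simp only [Nf, ← map_mul, hg' _, ← hψL] at h1
  rw [eL, eK]
  simp only [inL, inK, mul_add, Finset.sum_add_distrib, mul_ite, mul_zero, Finset.sum_ite_eq',
    mem_univ, if_true, map_zero, AddChar.map_zero_eq_one, mul_neg, Finset.sum_neg_distrib,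
    Finset.sum_ite_irrel, Finset.sum_const_zero, add_zero]
  linear_combination -h1

end

end Pool.Agent.MP_7adc1e_nt.H83

namespace Pool.Agent.MP_7adc1e_nt.H83

open Finset Pool.Agent.MP_7adc1e_nt

variable {K L : Type} [Field K] [Fintype K] [DecidableEq K] [Field L] [Fintype L] [DecidableEq L]

omit [DecidableEq L] in
/-- If `f` is additive on the subfield of index two and the sums are highly divisible then they
are nonnegative. -/
theorem nonneg_of_add (ι : K →+* L) (hL : Fintype.card L = Fintype.card K ^ 2)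
    (ψ : AddChar L ℂ) (f : L →*₀ L) (hadd : ∀ c d, f (ι (c + d)) = f (ι c) + f (ι d))
    (a : L) (w : ℤ) (hw : Wv ψ f 1 a = w) (d : ℤ) (hd : 3 * (Fintype.card K : ℤ) ≤ d)
    (hdw : d ∣ w) : 0 ≤ w := by
  classical
  have h1 : ∀ x, ∃ n : ℕ, ∑ c, ψ (1 * f (ι c * x) - a * (ι c * x)) = n := by
    intro x
    let χ : AddChar K ℂ := ⟨fun c => ψ (1 * f (ι c * x) - a * (ι c * x)), by simp, fun c d => by
      rw [← AddChar.map_add_eq_mul, map_mul, map_mul, map_mul, hadd, map_add]
      congr 1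
      ring⟩
    have h3 := AddChar.sum_eq_ite χ
    split_ifs at h3
    · exact ⟨_, h3⟩
    · exact ⟨0, by rw [Nat.cast_zero]; exact h3⟩
  choose n hn using h1
  have h3 : ∑ c, ∑ x, ψ (1 * f (ι c * x) - a * (ι c * x)) = ((∑ x, n x : ℕ) : ℂ) := by
    rw [Finset.sum_comm]
    simp only [hn]
    push_cast
    rfl
  rw [← Finset.add_sum_erase _ _ (mem_univ (0 : K)),
    Finset.sum_congr (s₁ := univ.erase (0 : K)) rfl (g := fun _ => (w : ℂ)) (fun c hc => by
      rw [← hw]
      exact Equiv.sum_comp (Equiv.mulLeft₀ (ι c) ((map_ne_zero ι).2 (mem_erase.1 hc).1))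
        (fun x => ψ (1 * f x - a * x))), Finset.sum_const, card_erase_of_mem (mem_univ _),
    card_univ, nsmul_eq_mul, Nat.cast_sub Fintype.card_pos] at h3
  simp only [map_zero, zero_mul, mul_zero, sub_zero, AddChar.map_zero_eq_one, Finset.sum_const,
    card_univ, nsmul_eq_mul, mul_one, hL] at h3
  generalize ∑ x, n x = Z at h3
  have h4 : (Fintype.card K : ℤ) ^ 2 + (Fintype.card K - 1) * w = Z := by exact_mod_cast h3
  have h5 : (2 : ℤ) ≤ Fintype.card K := by exact_mod_cast Fintype.one_lt_card (α := K)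
  by_contra h6
  have h7 := Int.le_of_dvd (by omega : 0 < -w) hdw.neg_right
  have h8 : (0 : ℤ) ≤ Z := Int.natCast_nonneg _
  generalize (Fintype.card K : ℤ) = r at *
  nlinarith [mul_le_mul_of_nonneg_left (hd.trans h7) (by omega : (0 : ℤ) ≤ r - 1)]

theorem tower {p : ℕ} (hp : p.Prime) (hp2 : p ≠ 2) (k : ℕ) :
    ∀ (L : Type) [Field L] [Fintype L] [DecidableEq L] [CharP L p],
      Fintype.card L = p ^ 2 ^ k → ∀ f : L →*₀ L, Function.Injective f → (∀ c : ℕ, f c = c) →
      (∀ ψ : AddChar L ℂ, ψ ≠ 1 → ∃ j, 2 ^ k < 2 * j ∧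
        ∀ a, ∃ m : ℤ, Wv ψ f 1 a = ((p : ℤ) ^ j * m : ℤ)) →
      ∀ x y, f (x + y) = f x + f y := by
  have : Fact p.Prime := ⟨hp⟩
  induction k with
  | zero =>
    intro L _ _ _ _ hL f _ hc _ x y
    have hs := (ZMod.castHom_bijective L (by simpa using hL)).2
    have h1 : ∀ z : L, f z = z := by
      intro z
      obtain ⟨u, rfl⟩ := hs z
      rw [← ZMod.natCast_zmod_val u, map_natCast, hc]
    rw [h1, h1, h1]
  | succ k ih =>
    intro L _ _ _ _ hL f hf hc hW
    classical
    let K := GaloisField p (2 ^ k)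
    let _ : Fintype K := Fintype.ofFinite K
    have hK : Fintype.card K = p ^ 2 ^ k := by
      rw [← Nat.card_eq_fintype_card]
      exact GaloisField.card p _ (by positivity)
    have hLK : Fintype.card L = Fintype.card K ^ 2 := by rw [hL, hK, ← pow_mul, pow_succ]
    let _ : Algebra (ZMod p) L := ZMod.algebra L p
    have hfin : Module.finrank (ZMod p) L = 2 ^ (k + 1) := by
      have := FiniteField.pow_finrank_eq_card p L
      rw [hL] at this
      exact Nat.pow_right_injective hp.two_le this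
    obtain ⟨ι'⟩ := FiniteField.nonempty_algHom_of_finrank_dvd (F := ZMod p) (K := K) (L := L) (by
      rw [hfin, GaloisField.finrank p (by positivity), pow_succ]
      exact dvd_mul_right _ _)
    let ι : K →+* L := ι'.toRingHom
    let σ : L →+* L := iterateFrobenius L p (2 ^ k)
    have hσ : ∀ x, σ x = x ^ Fintype.card K := fun x => by rw [hK]; rfl
    have hσσ : ∀ x, σ (σ x) = x := fun x => by
      rw [hσ, hσ, ← pow_mul, ← sq, ← hLK, FiniteField.pow_card]
    have hσι : ∀ c, σ (ι c) = ι c := fun c => by rw [hσ, ← map_pow, FiniteField.pow_card]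
    have hcomm : ∀ x, f (σ x) = σ (f x) := fun x => by rw [hσ, hσ, map_pow]
    have hfix : ∀ y, σ y = y → ∃ c, ι c = y := by
      intro y hy
      have h1 := Fintype.one_lt_card (α := K)
      have h3 : (univ.filter fun z => σ z = z).card ≤ Fintype.card K := by
        refine le_trans (Polynomial.card_le_degree_of_subset_roots
          (p := Polynomial.X ^ Fintype.card K - Polynomial.X) (fun z hz => ?_))
          (FiniteField.X_pow_card_sub_X_natDegree_eq L h1).le
        rw [Polynomial.mem_roots (FiniteField.X_pow_card_sub_X_ne_zero L h1)]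
        have := (mem_filter.1 hz).2
        rw [hσ] at this
        simp [this]
      have h4 : univ.image ι = univ.filter fun z => σ z = z := by
        refine Finset.eq_of_subset_of_card_le (fun z hz => ?_) ?_
        · obtain ⟨c, -, rfl⟩ := mem_image.1 hz
          exact mem_filter.2 ⟨mem_univ _, hσι c⟩
        · rwa [card_image_of_injective _ ι.injective, card_univ]
      have h5 : y ∈ univ.image ι := by
        rw [h4]
        exact mem_filter.2 ⟨mem_univ _, hy⟩
      simpa using h5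
    choose T hT using fun x => hfix (x + σ x) (by rw [map_add, hσσ, add_comm])
    choose N hN using fun x => hfix (x * σ x) (by rw [map_mul, hσσ, mul_comm])
    choose g0 hg0 using fun c => hfix (f (ι c)) (by rw [← hcomm, hσι])
    let g : K →*₀ K :=
      { toFun := g0
        map_zero' := ι.injective (by rw [hg0, map_zero, map_zero])
        map_one' := ι.injective (by rw [hg0, map_one, map_one])
        map_mul' := fun c d => ι.injective (by rw [map_mul, hg0, hg0, hg0, map_mul, map_mul]) }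
    have hg : ∀ c, ι (g c) = f (ι c) := hg0
    have hgi : Function.Injective g := fun c d h => ι.injective (hf (by rw [← hg, ← hg, h]))
    have hgc : ∀ c : ℕ, g c = c := fun c => ι.injective (by rw [hg, map_natCast, hc])
    have h2 : (2 : L) ≠ 0 := by
      intro h
      have := (CharP.cast_eq_zero_iff L p 2).1 (by exact_mod_cast h)
      exact hp2 ((Nat.prime_dvd_prime_iff_eq hp Nat.prime_two).1 this)
    have hadd := ih K hK g hgi hgc (by
      intro ψ hψ
      let Tr : L →+ K := AddMonoidHom.mk' T (fun x y => ι.injective (by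
        rw [map_add, hT, hT, hT, map_add]
        ring))
      have hψL : ∀ x, ψ.compAddMonoidHom Tr x = ψ (T x) := fun x => rfl
      have hne : ψ.compAddMonoidHom Tr ≠ 1 := by
        intro h
        apply hψ
        ext c
        have h1 : T (ι c / 2) = c := ι.injective (by
          rw [hT, map_div₀, hσι, map_ofNat]
          field_simp
          norm_num)
        rw [← h1, ← hψL, h]
        rfl
      obtain ⟨j, hj, hm⟩ := hW _ hne
      choose m hm using hm
      choose w hw using int_of_prime (ψ := ψ) g hp hgc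
      have w0 : w 0 = 0 := by
        have := Wv_zero hψ g hgi one_ne_zero
        rw [hw] at this
        exact_mod_cast this
      obtain ⟨c1, hc1⟩ : ∃ c1, w c1 ≠ 0 := by
        by_contra h
        push Not at h
        have := sum_Wv hψ g 1
        simp only [hw, h, Int.cast_zero, Finset.sum_const_zero] at this
        exact Fintype.card_ne_zero (by exact_mod_cast this.symm)
      obtain ⟨i, hi, hiw⟩ := half_val hp w w0 c1 hc1 j (fun b hb => by
        have h1 := descent ι σ hσι hLK T N hT hN hψ hψL f hf g hg hcomm hb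
        simp only [hm, hw] at h1
        have h3 : ∑ a, (if N a = b then (p : ℤ) ^ j * m a else 0) =
            ∑ c, ∑ d, (if c * d = b then w c * w d else 0) := by
          exact_mod_cast h1
        rw [← h3]
        refine Finset.dvd_sum (fun a _ => ?_)
        split_ifs
        · exact dvd_mul_right _ _
        · exact dvd_zero _)
      refine ⟨i, by rw [pow_succ] at hj; omega, fun a => ?_⟩
      obtain ⟨u, hu⟩ := hiw a
      exact ⟨u, by rw [hw, hu]⟩)
    have hψ : AddChar.FiniteField.primitiveChar_to_Complex L ≠ 1 := by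
      have := AddChar.FiniteField.primitiveChar_to_Complex_isPrimitive L one_ne_zero
      rwa [AddChar.mulShift_one] at this
    obtain ⟨j, hj, hm⟩ := hW _ hψ
    choose m hm using hm
    refine add_of_rep f hf (add_of_nonneg hψ f hf h2 _ hm (fun a => ?_))
    refine nonneg_of_add ι hLK _ f (fun c d => by rw [← hg, ← hg, ← hg, hadd, map_add]) a _ (hm a)
      ((p : ℤ) ^ j) ?_ (dvd_mul_right _ _)
    rw [hK]
    push_cast
    have h3 : (3 : ℤ) ≤ p := by
      have := hp.two_le
      omega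
    calc (3 : ℤ) * (p : ℤ) ^ 2 ^ k ≤ (p : ℤ) * (p : ℤ) ^ 2 ^ k := by gcongr
      _ = (p : ℤ) ^ (2 ^ k + 1) := by ring
      _ ≤ (p : ℤ) ^ j := pow_le_pow_right₀ (by omega) (by rw [pow_succ] at hj; omega)

omit [DecidableEq L] in
/-- All nontrivial characters give the same set of values. -/
theorem transfer {ψ ψ' : AddChar L ℂ} (hψ : ψ ≠ 1) (hψ' : ψ' ≠ 1) (f : L →*₀ L)
    (hf : Function.Injective f) : ∃ t : L, t ≠ 0 ∧ ∀ a, Wv ψ' f 1 a = Wv ψ f 1 (a * t) := by
  classical
  have hi := AddChar.to_mulShift_inj_of_isPrimitive (AddChar.IsPrimitive.of_ne_one hψ)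
  obtain ⟨v, rfl⟩ := ((Fintype.bijective_iff_injective_and_card _).2
    ⟨hi, AddChar.card_eq.symm⟩).2 ψ'
  have hv : v ≠ 0 := by
    rintro rfl
    exact hψ' (AddChar.mulShift_zero ψ)
  obtain ⟨t, ht0, -, ht⟩ := Wv_eq (ψ := ψ) f hf hv
  refine ⟨v * t, mul_ne_zero hv ht0, fun a => ?_⟩
  rw [← mul_assoc, ← ht]
  unfold Wv
  refine Finset.sum_congr rfl (fun x _ => ?_)
  rw [AddChar.mulShift_apply]
  congr 1
  ring

/-- Few values force high divisibility, over every finite field of odd characteristic. -/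
theorem few_values {p n : ℕ} (hp : p.Prime) (hp2 : p ≠ 2) [CharP L p]
    (hn : Fintype.card L = p ^ n) (f : L →*₀ L) (hf : Function.Injective f)
    (hne : rep f 1 1 ≠ Fintype.card L) {ψ : AddChar L ℂ} (hψ : ψ ≠ 1) (T : Finset ℂ)
    (hT : T.card ≤ 3) (hW : ∀ a, a ≠ 0 → Wv ψ f 1 a ∈ T) :
    (∀ c : ℕ, f c = c) ∧ ∃ j, n < 2 * j ∧
      ∀ a, ∃ m : ℤ, Wv ψ f 1 a = ((p : ℤ) ^ j * m : ℤ) := by
  classical
  have h2 : (2 : L) ≠ 0 := by
    intro h
    have := (CharP.cast_eq_zero_iff L p 2).1 (by exact_mod_cast h)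
    exact hp2 ((Nat.prime_dvd_prime_iff_eq hp Nat.prime_two).1 this)
  have hc : ∀ c : ℕ, f c = c := by
    by_cases h5 : 5 ≤ Fintype.card L
    · exact stepA hψ f hf h2 hp hn h5 T hT hW
    · have h1 := Fintype.one_lt_card (α := L)
      have hn0 : n ≠ 0 := by
        rintro rfl
        simp [hn] at h1
      have h3 : p ≤ p ^ n := Nat.le_self_pow hn0 p
      have h4 : p = 3 := by
        have := hp.two_le
        have h6 : p ≠ 4 := by
          rintro rfl
          exact absurd hp (by norm_num)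
        omega
      subst h4
      intro c
      rw [← CharP.natCast_eq_natCast_mod L 3 c |>.symm]
      have h6 : c % 3 < 3 := Nat.mod_lt _ (by norm_num)
      have h7 : ((2 : ℕ) : L) = -1 := by
        have := CharP.cast_eq_zero L 3
        push_cast at this ⊢
        linear_combination this
      generalize c % 3 = e at h6
      interval_cases e
      · simp
      · simp
      · rw [h7, f_neg f hf h2, map_one]
  refine ⟨hc, ?_⟩
  choose w hw using int_of_prime (ψ := ψ) f hp hc
  obtain ⟨a, b, hab⟩ := stepB hψ f hf h2 hp hn hne w hw (T.preimage Int.cast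
    (Int.cast_injective.injOn)) (le_trans (by
      rw [Finset.card_preimage]
      exact card_filter_le _ _) hT) (fun a ha => by
      rw [mem_preimage, ← hw]
      exact hW a ha)
  obtain ⟨j, hj, hd⟩ := stepC hψ f hf h2 w hw hp hn hne a b hab
  refine ⟨j, hj, fun a => ?_⟩
  obtain ⟨u, hu⟩ := hd a
  exact ⟨u, by rw [hw, hu]⟩

theorem add_of_few {p k : ℕ} (hp : p.Prime) (hp2 : p ≠ 2) [CharP L p]
    (hn : Fintype.card L = p ^ 2 ^ k) (f : L →*₀ L) (hf : Function.Injective f)
    {ψ : AddChar L ℂ} (hψ : ψ ≠ 1) (T : Finset ℂ)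
    (hT : T.card ≤ 3) (hW : ∀ a, a ≠ 0 → Wv ψ f 1 a ∈ T) (x y : L) : f (x + y) = f x + f y := by
  by_cases hne : rep f 1 1 = Fintype.card L
  · exact add_of_rep f hf hne x y
  obtain ⟨hc, j, hj, hm⟩ := few_values hp hp2 hn f hf hne hψ T hT hW
  refine tower hp hp2 k L hn f hf hc (fun ψ' hψ' => ⟨j, hj, fun a => ?_⟩) x y
  obtain ⟨t, -, ht⟩ := transfer hψ hψ' f hf
  rw [ht]
  exact hm _

omit [DecidableEq L] in
theorem pow_inj {s : ℕ} (hs0 : s ≠ 0) (hs : Nat.Coprime s (Fintype.card L - 1)) :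
    Function.Injective (powMonoidWithZeroHom hs0 : L →*₀ L) := by
  intro x y h2
  change x ^ s = y ^ s at h2
  by_cases hx : x = 0
  · rw [hx, zero_pow hs0] at h2
    rw [hx, pow_eq_zero_iff hs0 |>.1 h2.symm]
  by_cases hy : y = 0
  · rw [hy, zero_pow hs0] at h2
    exact absurd (pow_eq_zero_iff hs0 |>.1 h2) hx
  have h3 : (Nat.card Lˣ).Coprime s := by
    rw [Nat.card_units, Nat.card_eq_fintype_card]
    exact hs.symm
  have h4 := h3.pow_left_bijective.1 (a₁ := Units.mk0 x hx) (a₂ := Units.mk0 y hy)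
    (by ext; simpa using h2)
  simpa using congrArg Units.val h4

omit [DecidableEq L] in
theorem modEq_of_add {p : ℕ} (hp : p.Prime) [CharP L p] {s : ℕ} (hs0 : s ≠ 0)
    (h : ∀ x y : L, (x + y) ^ s = x ^ s + y ^ s) :
    ∃ k : ℕ, s ≡ p ^ k [MOD Fintype.card L - 1] := by
  have : Fact p.Prime := ⟨hp⟩
  let _ : Algebra (ZMod p) L := ZMod.algebra L p
  let φ : L →+* L :=
    { toFun := fun x => x ^ s
      map_one' := one_pow s
      map_mul' := fun x y => mul_pow x y s
      map_zero' := zero_pow hs0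
      map_add' := h }
  let φ' : L →ₐ[ZMod p] L := ⟨φ, fun c => by
    have := RingHom.ext_zmod (φ.comp (algebraMap (ZMod p) L)) (algebraMap (ZMod p) L)
    exact DFunLike.congr_fun this c⟩
  obtain ⟨i, hi⟩ := FiniteField.exists_forall_apply_eq_pow (ZMod p) p L
    (AlgEquiv.ofBijective φ' (Finite.injective_iff_bijective.1 φ.injective))
  obtain ⟨g, hg⟩ := IsCyclic.exists_ofOrder_eq_natCard (α := Lˣ)
  rw [Nat.card_units, Nat.card_eq_fintype_card] at hg
  have h1 : (g : L) ^ s = (g : L) ^ Nat.card (ZMod p) ^ i := hi g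
  rw [Nat.card_zmod, ← Units.val_pow_eq_pow_val, ← Units.val_pow_eq_pow_val, Units.val_inj,
    pow_eq_pow_iff_modEq, hg] at h1
  exact ⟨i, h1⟩

end Pool.Agent.MP_7adc1e_nt.H83

end
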