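import Pool.Agent.MP_7adc1e_nt.Core

-- part MP_7adc1e_nt.Fix
section

namespace Pool.Agent.MP_7adc1e_nt

open Finset

variable {K L : Type} [Field K] [Field L] [Fintype K] [Fintype L] [DecidableEq K] [DecidableEq L]
  [Algebra K L]

/-- The fixed points of `f` form `d` lines over `K`, `d ∣ r + 1`, and a point of the diagonal
off the graph has at least `d (d - 1)` representations. -/
theorem fix_count (f : L →*₀ L) (hK : ∀ (c : K) x, f (c • x) = c • f x)
    (hL : Fintype.card L = Fintype.card K ^ 2)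
    (σ : L →+* L) (hσσ : ∀ x, σ (σ x) = x) (hσK : ∀ (c : K) x, σ (c • x) = c • σ x)
    (hfix : ∀ x, σ x = x → ∃ c : K, x = c • 1) :
    ∃ d : ℕ, (univ.filter fun z => f z = z).card = 1 + d * (Fintype.card K - 1) ∧
      d ∣ Fintype.card K + 1 ∧ (∀ u, f u ≠ u → d * (d - 1) ≤ rep f u u) ∧
      (∀ z, f z = z → σ z ≠ z → 2 ≤ d) := by
  set F := (univ.filter fun z => f z = z).erase 0 with hF
  have hmem : ∀ z, z ∈ F ↔ z ≠ 0 ∧ f z = z := by
    intro z
    simp [hF]
  set E := F.image (fun z => σ z / z) with hE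
  have hσ0 : ∀ z, z ≠ 0 → σ z ≠ 0 := fun z hz => (map_ne_zero σ).2 hz
  have hline : ∀ x z, z ≠ 0 → σ x = σ z / z * x → ∃ c : K, x = c • z := by
    intro x z hz h
    obtain ⟨c, hc⟩ := hfix (x / z) (by
      rw [map_div₀, h]
      have := hσ0 z hz
      field_simp)
    refine ⟨c, ?_⟩
    rw [div_eq_iff hz] at hc
    rw [hc, smul_mul_assoc, one_mul]
  have hin : ∀ ζ ∈ E, ∀ x, σ x = ζ * x → f x = x := by
    intro ζ hζ x hx
    obtain ⟨z, hz, rfl⟩ := mem_image.1 hζ
    obtain ⟨hz0, hz1⟩ := (hmem z).1 hz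
    obtain ⟨c, rfl⟩ := hline x z hz0 hx
    rw [hK, hz1]
  have hcard : F.card = E.card * (Fintype.card K - 1) := by
    rw [Finset.card_eq_sum_card_image (fun z => σ z / z) F, ← hE, ← smul_eq_mul,
      ← Finset.sum_const]
    refine Finset.sum_congr rfl (fun ζ hζ => ?_)
    obtain ⟨z, hz, rfl⟩ := mem_image.1 hζ
    obtain ⟨hz0, hz1⟩ := (hmem z).1 hz
    rw [← Finset.card_univ, ← card_erase_of_mem (mem_univ (0 : K))]
    symm
    refine Finset.card_bij (fun c _ => c • z) ?_ ?_ ?_
    · intro c hc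
      have hc0 := Finset.ne_of_mem_erase hc
      rw [mem_filter, hmem, hK, hz1, hσK]
      refine ⟨⟨smul_ne_zero hc0 hz0, rfl⟩, ?_⟩
      rw [Algebra.smul_def, Algebra.smul_def]
      have : algebraMap K L c ≠ 0 := (map_ne_zero _).2 hc0
      field_simp
    · intro c _ c' _ h
      exact smul_left_injective K hz0 h
    · intro x hx
      rw [mem_filter, hmem] at hx
      obtain ⟨c, rfl⟩ := hline x z hz0 (by rw [← hx.2, div_mul_cancel₀ _ hx.1.1])
      refine ⟨c, ?_, rfl⟩
      simp only [mem_erase, mem_univ, and_true]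
      rintro rfl
      exact hx.1.1 (zero_smul _ _)
  have hK1 := Fintype.one_lt_card (α := K)
  refine ⟨E.card, ?_, ?_, ?_, ?_⟩
  · rw [← hcard, hF, card_erase_of_mem (by simp)]
    have : 0 < (univ.filter fun z => f z = z).card := card_pos.2 ⟨0, by simp⟩
    omega
  · let H : Subgroup Lˣ :=
      { carrier := {z | f z = z}
        mul_mem' := by
          intro a b ha hb
          simp only [Set.mem_setOf_eq, Units.val_mul, map_mul] at ha hb ⊢
          rw [ha, hb]
        one_mem' := by simp
        inv_mem' := by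
          intro a ha
          simp only [Set.mem_setOf_eq, Units.val_inv_eq_inv_val, map_inv₀] at ha ⊢
          rw [ha] }
    have h1 : Nat.card H = F.card := by
      rw [← Nat.card_eq_finsetCard]
      refine Nat.card_congr
        { toFun := fun z => ⟨z.1.1, (hmem _).2 ⟨z.1.ne_zero, z.2⟩⟩
          invFun := fun z => ⟨Units.mk0 z.1 ((hmem _).1 z.2).1, ((hmem _).1 z.2).2⟩
          left_inv := fun z => by simp
          right_inv := fun z => by simp }
    have h2 := Subgroup.card_subgroup_dvd_card H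
    rw [h1, hcard, Nat.card_units, Nat.card_eq_fintype_card, hL] at h2
    obtain ⟨r, hr⟩ : ∃ r, Fintype.card K = r + 1 := ⟨Fintype.card K - 1, by omega⟩
    rw [hr] at h2 hK1 ⊢
    rw [Nat.add_sub_cancel, show (r + 1) ^ 2 - 1 = (r + 1 + 1) * r by
      rw [Nat.sub_eq_iff_eq_add (Nat.one_le_pow _ _ (by omega))]; ring] at h2
    exact Nat.dvd_of_mul_dvd_mul_right (by omega) h2
  · intro u hu
    have hN : ∀ ζ ∈ E, σ ζ * ζ = 1 := by
      intro ζ hζ
      obtain ⟨z, hz, rfl⟩ := mem_image.1 hζ
      have hz0 := ((hmem z).1 hz).1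
      have := hσ0 z hz0
      rw [map_div₀, hσσ]
      field_simp
    have key : ∀ a ∈ E, ∀ b ∈ E, a ≠ b →
        σ ((σ u - b * u) / (a - b)) = a * ((σ u - b * u) / (a - b)) := by
      intro a ha b hb hab
      have h1 := hN a ha
      have h2 := hN b hb
      have h3 : a - b ≠ 0 := sub_ne_zero.2 hab
      have h4 : σ a - σ b ≠ 0 := by rw [← map_sub]; exact hσ0 _ h3
      rw [map_div₀, map_sub, map_sub, map_mul, hσσ, mul_div_assoc', div_eq_div_iff h4 h3]
      linear_combination (b * u - σ u) * h1 + (σ u - a * u) * h2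
    have key' : ∀ a b : L, a ≠ b →
        u - (σ u - b * u) / (a - b) = (σ u - a * u) / (b - a) := by
      intro a b hab
      have h3 : a - b ≠ 0 := sub_ne_zero.2 hab
      have h4 : b - a ≠ 0 := sub_ne_zero.2 hab.symm
      field_simp
      ring
    have hne : ∀ a ∈ E, ∀ b : L, a ≠ b → (σ u - a * u) / (b - a) ≠ 0 := by
      intro a ha b hab
      refine div_ne_zero (fun h => hu (hin a ha u (sub_eq_zero.1 h))) (sub_ne_zero.2 hab.symm)
    have h1 : E.offDiag.card = E.card * (E.card - 1) := by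
      rw [Finset.offDiag_card, Nat.mul_sub_one]
    rw [← h1]
    unfold rep
    refine Finset.card_le_card_of_injOn (fun ab => (σ u - ab.2 * u) / (ab.1 - ab.2)) ?_ ?_
    · rintro ⟨a, b⟩ hab
      obtain ⟨ha, hb, hab⟩ := mem_offDiag.1 hab
      simp only [coe_filter, mem_univ, true_and, Set.mem_ofPred_eq]
      have e1 := hin a ha _ (key a ha b hb hab)
      have e2 := hin b hb _ (key b hb a ha hab.symm)
      rw [e1, key' a b hab, e2, ← key' a b hab]
      ring
    · rintro ⟨a, b⟩ hab ⟨a', b'⟩ hab' h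
      obtain ⟨ha, hb, hab⟩ := mem_offDiag.1 hab
      obtain ⟨ha', hb', hab'⟩ := mem_offDiag.1 hab'
      simp only at h ha hb hab ha' hb' hab'
      have e1 := key a ha b hb hab
      have e2 := key a' ha' b' hb' hab'
      have e3 := key b hb a ha hab.symm
      have e4 := key b' hb' a' ha' hab'.symm
      rw [← h, e1] at e2
      have h' : (σ u - a * u) / (b - a) = (σ u - a' * u) / (b' - a') := by
        rw [← key' a b hab, ← key' a' b' hab', h]
      rw [← h', e3] at e4
      exact Prod.ext (mul_right_cancel₀ (hne b hb a hab.symm) e2)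
        (mul_right_cancel₀ (hne a ha b hab) e4)
  · intro z hz1 hz2
    have hz0 : z ≠ 0 := by
      rintro rfl
      exact hz2 (map_zero σ)
    refine Finset.one_lt_card.2 ⟨σ 1 / 1, mem_image_of_mem _ ((hmem 1).2 ⟨one_ne_zero, map_one f⟩),
      σ z / z, mem_image_of_mem _ ((hmem z).2 ⟨hz0, hz1⟩), ?_⟩
    rw [map_one, div_one]
    intro h
    exact hz2 ((div_eq_one_iff_eq hz0).1 h.symm)

end Pool.Agent.MP_7adc1e_nt

end

-- part MP_7adc1e_nt.Two
section

namespace Pool.Agent.MP_7adc1e_nt

open Finset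

variable {K L : Type} [Field K] [Field L] [Fintype K] [Fintype L] [DecidableEq K] [DecidableEq L]
  [Algebra K L]

theorem arith (r A d₁ d₂ : ℕ) (hr : Odd r) (hA : 2 ∣ A) (h1 : A ∣ 2 * r) (h0 : 0 < A)
    (hd : (A : ℤ) ∣ 2 + (d₁ + d₂) * (r - 1) - r - r ^ 2)
    (e₁ : d₁ ∣ r + 1) (e₂ : d₂ ∣ r + 1) (l₁ : d₁ * (d₁ - 1) ≤ A) (l₂ : d₂ * (d₂ - 1) ≤ A)
    (p₁ : 1 ≤ d₁) (p₂ : 1 ≤ d₂) (h2 : 2 ≤ d₁ ∨ 2 ≤ d₂) : A = 2 := by
  obtain ⟨m, rfl⟩ := hA
  have hm : m ∣ r := Nat.dvd_of_mul_dvd_mul_left (by norm_num) h1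
  have hmo : Odd m := Odd.of_dvd_nat hr hm
  have h3 : (m : ℤ) ∣ ((d₁ + d₂ - 2 : ℕ) : ℤ) := by
    obtain ⟨c, rfl⟩ := hm
    obtain ⟨k, hk⟩ := hd
    rw [Nat.cast_sub (by omega)]
    push_cast at hk ⊢
    exact ⟨(d₁ + d₂) * c - c - m * c ^ 2 - 2 * k, by linear_combination -hk⟩
  rw [Int.natCast_dvd_natCast] at h3
  have h4 := Nat.le_of_dvd (by omega) h3
  obtain ⟨j, rfl⟩ := hmo
  have key : ∀ d, d ∣ r + 1 → d * (d - 1) ≤ 2 * (2 * j + 1) → j + 2 ≤ d → j = 0 := by
    intro d e l hj
    obtain ⟨d, rfl⟩ : ∃ x, d = x + 1 := ⟨d - 1, by omega⟩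
    rw [Nat.add_sub_cancel] at l
    by_contra hj0
    have hj1 : j = 1 := by nlinarith [Nat.pos_of_ne_zero hj0]
    subst hj1
    have hd2 : d = 2 := by nlinarith
    subst hd2
    omega
  rcases le_total d₁ d₂ with h | h
  · have := key d₂ e₂ l₂ (by omega)
    omega
  · have := key d₁ e₁ l₁ (by omega)
    omega

theorem rep_even (f : L → L) (v : L) (S : Finset L)
    (h1 : ∀ x ∈ S, 1 - x ∈ S) (h2 : ∀ x ∈ S, 1 - x ≠ x) : 2 ∣ S.card := by
  have : ∑ _x ∈ S, (1 : ZMod 2) = 0 :=
    Finset.sum_involution (fun x _ => 1 - x) (fun _ _ => by decide) (fun x hx _ => h2 x hx)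
      (fun x hx => h1 x hx) (fun _ _ => by ring)
  rw [Finset.sum_const, nsmul_eq_mul, mul_one] at this
  exact (ZMod.natCast_eq_zero_iff _ _).1 this

/-- The abstract form of the theorem. -/
theorem two (f : L →*₀ L) (hf : Function.Injective f) (hK : ∀ (c : K) x, f (c • x) = c • f x)
    (hodd : Odd (Fintype.card L))
    (σ : L →+* L) (hσσ : ∀ x, σ (σ x) = x) (hσK : ∀ (c : K) x, σ (c • x) = c • σ x)
    (hfix : ∀ x, σ x = x → ∃ c : K, x = c • 1) (hcomm : ∀ x, f (σ x) = σ (f x))
    (g : L) (hg1 : f g ≠ g) (hg2 : f g ≠ σ g)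
    (hnice : (univ.image (rep f 1)).card ≤ 3) : ∃ v, rep f 1 v = 2 := by
  have hfK : ∀ c : K, f (c • 1) = c • 1 := fun c => by rw [hK, map_one]
  have hfixf : ∀ x, σ x = x → f x = x := by
    intro x hx
    obtain ⟨c, rfl⟩ := hfix x hx
    exact hfK c
  have hσ1 : ∀ c : K, σ (c • 1) = c • 1 := fun c => by rw [hσK, map_one]
  have hneg : ∀ x, f (-x) = - f x := fun x => by
    have := hK (-1) x
    simpa using this
  have hgσ : g - σ g ≠ 0 := fun h => hg1 (hfixf g (sub_eq_zero.1 h).symm)
  -- norms are preserved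
  have hnorm : ∀ x, f x * σ (f x) = x * σ x := by
    intro x
    rw [← hcomm, ← map_mul]
    apply hfixf
    rw [map_mul, hσσ, mul_comm]
  have htr : ∀ w, f w + σ (f w) = w + σ w ↔ f w = w ∨ σ (f w) = w := by
    intro w
    constructor
    · intro h
      have : (f w - w) * (σ (f w) - w) = 0 := by
        linear_combination hnorm w - w * h
      rcases mul_eq_zero.1 this with h | h
      · exact Or.inl (sub_eq_zero.1 h)
      · exact Or.inr (sub_eq_zero.1 h)
    · rintro (h | h)
      · rw [h]
      · have := congrArg σ h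
        rw [hσσ] at this
        rw [h, this, add_comm]
  -- a basis
  have hli : LinearIndependent K ![(1 : L), g] := by
    rw [LinearIndependent.pair_iff]
    intro a c h
    have h2 := congrArg σ h
    rw [map_add, hσ1, hσK, map_zero] at h2
    have h3 : c • (g - σ g) = 0 := by
      rw [smul_sub]
      linear_combination h - h2
    have hc := (smul_eq_zero.1 h3).resolve_right hgσ
    rw [hc, zero_smul, add_zero] at h
    exact ⟨(smul_eq_zero.1 h).resolve_right one_ne_zero, hc⟩
  have hsp : ⊤ ≤ Submodule.span K (Set.range ![(1 : L), g]) := by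
    intro x _
    obtain ⟨c, hc⟩ := hfix ((x - σ x) / (g - σ g)) (by
      rw [map_div₀, map_sub, map_sub, hσσ, hσσ, ← neg_sub x, ← neg_sub g, neg_div_neg_eq])
    rw [div_eq_iff hgσ, smul_mul_assoc, one_mul, smul_sub] at hc
    obtain ⟨a, ha⟩ := hfix (x - c • g) (by
      rw [map_sub, hσK]
      linear_combination -hc)
    have : x = a • 1 + c • g := by rw [← ha]; ring
    rw [this]
    exact Submodule.add_mem _
      (Submodule.smul_mem _ _ (Submodule.subset_span ⟨0, rfl⟩))
      (Submodule.smul_mem _ _ (Submodule.subset_span ⟨1, rfl⟩))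
  let b : Module.Basis (Fin 2) K L := Module.Basis.mk hli hsp
  have hb0 : b 0 = 1 := by simp [b]
  have hb1 : b 1 = g := by simp [b]
  have hL : Fintype.card L = Fintype.card K ^ 2 := by
    rw [Fintype.card_congr b.equivFun.toEquiv]
    simp
  have hr : Odd (Fintype.card K) := by
    rw [hL] at hodd
    exact (Nat.odd_pow_iff (by norm_num)).1 hodd
  have h2 : (2 : L) ≠ 0 := by
    intro h
    have h3 : ((Fintype.card L : ℕ) : L) = 0 := FiniteField.cast_card_eq_zero L
    obtain ⟨k, hk⟩ := hodd
    rw [hk] at h3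
    push_cast at h3
    rw [h] at h3
    simp at h3
  have claim : ∀ a c : K, a ≠ 0 → c ≠ 0 → f (a • 1 + c • b 1) ≠ a • 1 + c • f (b 1) := by
    intro a c ha hc h
    rw [hb1] at h
    have h3 := hnorm (a • 1 + c • g)
    rw [h] at h3
    simp only [map_add, hσK, map_one] at h3
    simp only [Algebra.smul_def, mul_one] at h3
    have ha' : algebraMap K L a ≠ 0 := (map_ne_zero _).2 ha
    have hc' : algebraMap K L c ≠ 0 := (map_ne_zero _).2 hc
    have h4 : f g + σ (f g) = g + σ g := by
      apply mul_left_cancel₀ (mul_ne_zero ha' hc')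
      linear_combination h3 - (algebraMap K L c) ^ 2 * hnorm g
    rcases (htr g).1 h4 with h5 | h5
    · exact hg1 h5
    · apply hg2
      rw [← hσσ (f g), h5]
  -- parity
  have hhalf : f (1 / 2) = 1 / 2 := hfixf _ (by rw [map_div₀, map_one, map_ofNat])
  have hfp : ∀ x : L, 1 - x = x → x = 1 / 2 := by
    intro x hx
    field_simp
    linear_combination -hx
  have heven : ∀ v, v ≠ 1 → 2 ∣ rep f 1 v := by
    intro v hv
    refine rep_even f v _ (fun x hx => ?_) (fun x hx h => ?_)
    · simp only [mem_filter, mem_univ, true_and] at hx ⊢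
      rw [sub_sub_cancel, add_comm, hx]
    · simp only [mem_filter, mem_univ, true_and] at hx
      rw [h, hfp x h, hhalf] at hx
      apply hv
      rw [← hx]
      field_simp
      norm_num
  have hoddB : ¬ 2 ∣ rep f 1 1 := by
    have h3 : (1 / 2 : L) ∈ univ.filter fun x => f x + f (1 - x) = 1 := by
      simp only [mem_filter, mem_univ, true_and]
      rw [show (1 : L) - 1 / 2 = 1 / 2 by field_simp; norm_num, hhalf]
      field_simp
      norm_num
    have h4 := rep_even f 1 ((univ.filter fun x => f x + f (1 - x) = 1).erase (1 / 2))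
      (fun x hx => by
        simp only [mem_erase, mem_filter, mem_univ, true_and] at hx ⊢
        refine ⟨fun h => hx.1 ?_, by rw [sub_sub_cancel, add_comm, hx.2]⟩
        rw [← sub_sub_cancel 1 x, h]
        field_simp
        norm_num)
      (fun x hx h => (mem_erase.1 hx).1 (hfp x h))
    have h5 := Finset.card_erase_add_one h3
    unfold rep
    omega
  have hzero : rep f 1 0 = 0 := by
    unfold rep
    rw [Finset.card_eq_zero, Finset.filter_eq_empty_iff]
    intro x _ h
    have h3 : f x = f (-(1 - x)) := by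
      rw [hneg]
      linear_combination h
    have := hf h3
    exact one_ne_zero (α := L) (by linear_combination this)
  obtain ⟨A, hA⟩ : ∃ A, ∀ v, v ≠ 1 → rep f 1 v = 0 ∨ rep f 1 v = A := by
    by_cases h : ∃ v, v ≠ 1 ∧ rep f 1 v ≠ 0
    · obtain ⟨v, hv, hv0⟩ := h
      refine ⟨rep f 1 v, fun w hw => ?_⟩
      by_contra hc
      push Not at hc
      have hsub : ({0, rep f 1 1, rep f 1 v, rep f 1 w} : Finset ℕ) ⊆ univ.image (rep f 1) := by
        intro n hn
        simp only [mem_insert, mem_singleton] at hn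
        rcases hn with rfl | rfl | rfl | rfl
        · exact mem_image.2 ⟨0, mem_univ _, hzero⟩
        all_goals exact mem_image_of_mem _ (mem_univ _)
      have h3 := card_le_card hsub
      have e1 := heven v hv
      have e2 := heven w hw
      rw [card_insert_of_notMem (by simp only [mem_insert, mem_singleton]; omega),
        card_insert_of_notMem (by simp only [mem_insert, mem_singleton]; omega),
        card_pair (by omega)] at h3
      omega
    · push Not at h
      exact ⟨0, fun v hv => Or.inl (h v hv)⟩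
  obtain ⟨c1, -, v, hv, hApos, hvA⟩ := core f hf hK hL b hb0 claim A hA
  refine ⟨v, ?_⟩
  rw [hvA]
  have hAeven : 2 ∣ A := hvA ▸ heven v hv
  have hle : ∀ u w, u ≠ 0 → w ≠ f u → rep f u w ≤ A := by
    intro u w hu hw
    have hfu : f u ≠ 0 := fun h => hu (hf (by rw [h, map_zero]))
    rw [rep_scale f hf hu]
    rcases hA _ (fun h => hw ((div_eq_one_iff_eq hfu).1 h)) with h | h <;> omega
  have hg0 : g ≠ 0 := by
    rintro rfl
    exact hg1 (map_zero f)
  let f' : L →*₀ L := σ.toMonoidWithZeroHom.comp f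
  have hf' : ∀ x, f' x = σ (f x) := fun x => rfl
  obtain ⟨d₁, a₁, e₁, l₁, n₁⟩ := fix_count f hK hL σ hσσ hσK hfix
  obtain ⟨d₂, a₂, e₂, l₂, n₂⟩ := fix_count f' (fun c x => by rw [hf', hf', hK, hσK]) hL σ hσσ
    hσK hfix
  have hK1 := Fintype.one_lt_card (α := K)
  have hpos : ∀ (φ : L →*₀ L) (d : ℕ),
      (univ.filter fun z => φ z = z).card = 1 + d * (Fintype.card K - 1) → 1 ≤ d := by
    intro φ d h
    have : 1 < (univ.filter fun z => φ z = z).card :=
      Finset.one_lt_card.2 ⟨0, by simp, 1, by simp, zero_ne_one⟩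
    rcases Nat.eq_zero_or_pos d with rfl | h0
    · omega
    · exact h0
  refine arith (Fintype.card K) A d₁ d₂ hr hAeven c1 hApos ?_ e₁ e₂
    ((l₁ g hg1).trans (hle _ _ hg0 hg1.symm)) ?_ (hpos _ _ a₁) (hpos _ _ a₂) ?_
  · -- the congruence
    set F₁ := univ.filter fun z => f z = z with hF₁
    set F₂ := univ.filter fun z => f' z = z with hF₂
    have i1 : (F₁ ∩ F₂).card = Fintype.card K := by
      rw [← Finset.card_univ]
      symm
      refine Finset.card_bij (fun c _ => c • (1 : L)) ?_ ?_ ?_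
      · intro c _
        simp [hF₁, hF₂, hf', hfK, hσ1]
      · intro c _ c' _ h
        exact smul_left_injective K one_ne_zero h
      · intro z hz
        simp only [hF₁, hF₂, hf', mem_inter, mem_filter, mem_univ, true_and] at hz
        obtain ⟨c, hc⟩ := hfix z (by rw [← hz.1, hz.2, hz.1])
        exact ⟨c, mem_univ _, hc.symm⟩
    have i2 := Finset.card_union_add_card_inter F₁ F₂
    let M := univ.filter fun x : L => (f x + f (1 - x)) * σ (f x + f (1 - x)) = 1
    have hM : ∀ x, x ≠ 1 → (x ∈ M ↔ x / (1 - x) ∈ F₁ ∪ F₂) := by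
      intro x hx
      have hx' : 1 - x ≠ 0 := sub_ne_zero.2 hx.symm
      have hx'' : σ (1 - x) ≠ 0 := (map_ne_zero σ).2 hx'
      have hf1 : f (1 - x) ≠ 0 := (map_ne_zero f).2 hx'
      have hf2 : σ (f (1 - x)) ≠ 0 := (map_ne_zero σ).2 hf1
      simp only [M, hF₁, hF₂, hf', mem_union, mem_filter, mem_univ, true_and]
      rw [← htr, map_div₀, map_div₀, map_div₀, map_add, div_add_div _ _ hf1 hf2,
        div_add_div _ _ hx' hx'', hnorm, div_left_inj' (mul_ne_zero hx' hx'')]
      have q1 := hnorm x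
      have q2 := hnorm (1 - x)
      have q3 : σ (1 - x) = 1 - σ x := by rw [map_sub, map_one]
      constructor
      · intro h
        rw [q3] at q2 ⊢
        linear_combination h - q1 - q2
      · intro h
        rw [q3] at q2 h
        linear_combination h + q1 + q2
    have hM1 : (1 : L) ∈ M := by simp [M]
    have hF1 : (-1 : L) ∈ F₁ ∪ F₂ := by simp [hF₁, hneg]
    have i3 : M.card = (F₁ ∪ F₂).card := by
      rw [← Finset.card_erase_add_one hM1, ← Finset.card_erase_add_one hF1]
      congr 1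
      refine Finset.card_bij (fun x _ => x / (1 - x)) ?_ ?_ ?_
      · intro x hx
        obtain ⟨h1, h3⟩ := mem_erase.1 hx
        have hx' : 1 - x ≠ 0 := sub_ne_zero.2 h1.symm
        refine mem_erase.2 ⟨?_, (hM x h1).1 h3⟩
        intro h
        rw [div_eq_iff hx'] at h
        exact one_ne_zero (α := L) (by linear_combination h)
      · intro x hx y hy h
        have hx' : 1 - x ≠ 0 := sub_ne_zero.2 (mem_erase.1 hx).1.symm
        have hy' : 1 - y ≠ 0 := sub_ne_zero.2 (mem_erase.1 hy).1.symm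
        rw [div_eq_div_iff hx' hy'] at h
        linear_combination h
      · intro z hz
        obtain ⟨h1, h3⟩ := mem_erase.1 hz
        have hz' : 1 + z ≠ 0 := fun h => h1 (by linear_combination h)
        have h4 : z / (1 + z) ≠ 1 := by
          intro h
          rw [div_eq_iff hz'] at h
          exact one_ne_zero (α := L) (by linear_combination -h)
        have h5 : z / (1 + z) / (1 - z / (1 + z)) = z := by
          rw [show 1 - z / (1 + z) = 1 / (1 + z) by field_simp; ring]
          field_simp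
        exact ⟨z / (1 + z), mem_erase.2 ⟨h4, (hM _ h4).2 (by rw [h5]; exact h3)⟩, h5⟩
    have i4 : Fintype.card L = M.card + ∑ v ∈ univ.filter (fun v : L => ¬ v * σ v = 1),
        rep f 1 v := by
      rw [← Finset.card_univ, ← Finset.card_filter_add_card_filter_not (s := univ)
        (fun x : L => (f x + f (1 - x)) * σ (f x + f (1 - x)) = 1)]
      congr 1
      rw [Finset.card_eq_sum_card_fiberwise (f := fun x : L => f x + f (1 - x))
        (t := univ.filter (fun v : L => ¬ v * σ v = 1)) (fun x hx => by simpa using hx)]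
      refine Finset.sum_congr rfl (fun v hv => ?_)
      unfold rep
      congr 1
      ext x
      simp only [mem_filter, mem_univ, true_and] at hv ⊢
      exact ⟨fun h => h.2, fun h => ⟨by rw [h]; exact hv, h⟩⟩
    have i5 : A ∣ ∑ v ∈ univ.filter (fun v : L => ¬ v * σ v = 1), rep f 1 v :=
      Finset.dvd_sum (fun v hv => by
        have : v ≠ 1 := by
          rintro rfl
          simp at hv
        rcases hA v this with h | h <;> simp [h])
    obtain ⟨k, hk⟩ := i5
    rw [hk, i3, hL] at i4
    rw [a₁, a₂, i1] at i2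
    zify [hK1.le] at i2 i4
    exact ⟨-k, by linear_combination -i2 - i4⟩
  · have h3 : f' g ≠ g := by
      intro h
      apply hg2
      rw [← hσσ (f g), ← hf', h]
    refine (l₂ g h3).trans (le_trans (le_of_eq ?_) (hle g (σ g) hg0 hg2.symm))
    unfold rep
    congr 1
    ext x
    simp only [mem_filter, mem_univ, true_and, hf']
    rw [← map_add]
    constructor
    · intro h
      have := congrArg σ h
      rwa [hσσ] at this
    · intro h
      rw [h, hσσ]
  · set i := g - σ g with hi
    have hσi : σ i = -i := by rw [hi, map_sub, hσσ, neg_sub]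
    have hne : σ i ≠ i := by
      rw [hσi]
      intro h
      apply hgσ
      apply mul_left_cancel₀ h2
      linear_combination -h
    have h4 : f i + σ (f i) = i + σ i := by
      rw [← hcomm, hσi, hneg]
      ring
    rcases (htr i).1 h4 with h | h
    · exact Or.inl (n₁ i h hne)
    · exact Or.inr (n₂ i h hne)

end Pool.Agent.MP_7adc1e_nt

end
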